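import Pool.Agent.Helper91.FU.J
import Pool.Agent.Helper12.TE.C

/-!
Fused machine (MP_c75db0, star frame): the items of the kinds `0` - `5` as parameters of the instance of
`Helper12.TE` (all kinds, tail of the runs with disc matrices).
-/

set_option autoImplicit false
noncomputable section
namespace Pool.Agent.Helper91.FU

open Pool.Agent.Helper17.K9 (V9)
open Pool.Agent.Helper17.N9 (Kf)
open Pool.Agent.Helper26.IT (condB)
open Pool.Agent.Helper12.TE (KA ALW)
open Pool.Agent.Helper91.TM
open Pool.Agent.Helper91.TMK (nM)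
open Pool.Agent.Helper91.TMK.SW
open Pool.Agent.Helper21.TC

variable {γ : Type}

/-- the items of the kinds `0` - `5` -/
def aFX (U : TF Kf γ) : KA TP Kf γ := fun C c P i j Sl Sr g => aF MT U C c P i j Sl Sr g
/-- the same, or the former tests -/
def aFO (U : TF Kf γ) (T : Pool.Agent.Helper21.SW.TK Kf γ) : KA TP Kf γ :=
  fun C c P i j Sl Sr g => cond (aF MT U C c P i j Sl Sr g) true (aK MT (TT T) C c P i j Sl Sr g)

theorem aFX_L {U : TF Kf γ} (hU : TFL KV U) : ALW lfT KV MT (aFX U) :=
  fun hC h hl hr => aF_ok hU hC h hl hr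

theorem aFO_L {U : TF Kf γ} (hU : TFL KV U) {T : Pool.Agent.Helper21.SW.TK Kf γ}
    (hT : Pool.Agent.Helper21.SW.TKL KV T) : ALW lfT KV MT (aFO U T) := by
  intro C q r x t bc c P i j Sl Sr g S S' hC h hl hr
  rcases condB h with ⟨h, _⟩ | h
  · exact aF_ok hU hC h hl hr
  · exact aK_ok MT_ok (TT_ok hT) hC h hl hr

end Pool.Agent.Helper91.FU
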