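import Pool.Agent.Helper91.FU.S
import Pool.Agent.Helper91.BX.T

/-!
Fused machine (MP_c75db0, star frame): the laws of a record of tests.
-/

set_option autoImplicit false
noncomputable section
namespace Pool.Agent.Helper91.FU

open Pool.Agent.Helper90.KMT (PT)
open Pool.Agent.Helper91.BX (tu)
open Pool.Agent.Helper6.MONO.W2 (Mt NT)

/-- the interpolation at `0`, `1/2`, `1` -/
def q3 (u : ℝ) (a b c : Mt) : Mt := (((1 - u) * (1 - 2 * u) : ℝ) : ℂ) • a +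
  ((4 * u * (1 - u) : ℝ) : ℂ) • b + ((u * (2 * u - 1) : ℝ) : ℂ) • c

/-- THE LAWS. `KV k t`: the form at the point `t` of the box -/
structure TFL {κ γ : Type} (KV : κ → (ℕ → ℝ) → Mt) (U : TF κ γ) : Prop where
  t3 : ∀ {k1 k2 : κ} {g : γ} {M X : W9} {t : ℕ → ℝ} {Mr Xr : Mt}, U.t3 k1 k2 g M X = true →
    PT 3 t → RM 7 t Mr M → RM 7 t Xr X → NT (KV k1 t) (KV k2 t) Xr Mr
  t4 : ∀ {k1 k2 : κ} {g : γ} {M N P X Y Z : W9} {t : ℕ → ℝ} {u : ℝ} {Mr Xr m n p x y z : Mt},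
    U.t4 k1 k2 g M N P X Y Z = true → PT 3 t → PT 4 (tu 3 t u) →
    RM 7 t m M → RM 7 t n N → RM 7 t p P → Mr = q3 u m n p →
    RM 7 t x X → RM 7 t y Y → RM 7 t z Z → Xr = q3 u x y z → NT (KV k1 t) (KV k2 t) Xr Mr

end Pool.Agent.Helper91.FU
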