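import Pool.Agent.Helper91.FU.D
import Pool.Agent.Helper62.TM.NBX
import Pool.Agent.Helper21.TM.MT

/-!
Fused machine (MP_c75db0, star frame), kernel side: THE INSTANCE OF THE ITEM TESTS of a cell (kinds `0`
- `5` with the fused machine, the other kinds and the invariance items as before).
-/

set_option autoImplicit false
noncomputable section
namespace Pool.Agent.Helper91.FU

open Pool.Agent.Helper86.CX (Cx andB)
open Pool.Agent.Helper17.K9 (V9)
open Pool.Agent.Helper17.N9 (Kf)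
open Pool.Agent.Helper26.SF (Sf)
open Pool.Agent.Helper62.NBD (BP GB)
open Pool.Agent.Helper62.NBW (nth)
open Pool.Agent.Helper91.TM (AT TP)
open Pool.Agent.Helper91.TMK.IT (chK)
open Pool.Agent.Helper91.TMK.NBX (isG gK glM itGJ)
open Pool.Agent.Helper91.TMK.SW (Mn Cel TK IT GN)
open Pool.Agent.Helper21.SW (Mu)
open Pool.Agent.Helper21.TC (MT TT dT itT)

variable {κ γ : Type}

/-- AN ITEM of kind 0 - 5 -/
def aF (M : Mn TP) (U : TF κ γ) (C : Cel κ) (c P i j : Nat) (Sl Sr : V9 TP) (g : γ) : Bool :=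
  itF U (C.H M) (C.L M c) (C.tb c) (chK AT c (C.tb c) (C.L M c).w) c P (C.fo i) (C.fo j) Sl Sr g
/-- **ONE ITEM, ALL KINDS** -/
def itGF (M : Mn TP) (U : TF κ γ) (T : TK TP κ γ) (C : Cel κ) (d : GB TP) (c P i j : Nat)
    (Sl Sr : V9 TP) (gs : List γ) : Bool :=
  cond (Nat.ble (nat_lit 6) (Nat.mod P (nat_lit 8)))
    (andB (isG C.D.gb c) (gK M.A T (C.H M) (glM M C d (Nat.beq (Nat.mod c (nat_lit 2)) (nat_lit 1)))
      d.bp (Nat.mod P (nat_lit 8)) (Nat.div P (nat_lit 8)) (C.fo i) (C.fo j) Sl Sr gs))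
    (nth gs (fun g => aF M U C c P i j Sl Sr g) (nat_lit 0))
/-- THE INSTANCE -/
def itGIF (M : Mn TP) (U : TF κ γ) (T : TK TP κ γ) (d : GB TP) : IT TP κ (List γ) (Mu × Sf) :=
  ⟨fun C c P i j Sl Sr gs => itGF M U T C d c P i j Sl Sr gs,
    fun C c P i f m => itGJ M T C d c P i f m⟩
/-- THE ITEM TESTS OF A CELL -/
def itTF (U : TF Kf γ) (T : Pool.Agent.Helper21.SW.TK Kf γ) (C : Cel Kf) (g : GN) :
    IT TP Kf (List γ) (Mu × Sf) := itGIF MT U (TT T) (dT C g)
/-- the tests of items of `I`, or those of `J` -/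
def orK {α κ γ δ : Type} (I J : IT α κ γ δ) : IT α κ γ δ :=
  ⟨fun C c P i j Sl Sr g => cond (I.k C c P i j Sl Sr g) true (J.k C c P i j Sl Sr g), I.i⟩
/-- the item tests of a cell with the fused machine, or the former ones -/
def itTO (U : TF Kf γ) (T : Pool.Agent.Helper21.SW.TK Kf γ) (C : Cel Kf) (g : GN) :
    IT TP Kf (List γ) (Mu × Sf) := orK (itTF U T C g) (itT T C g)

end Pool.Agent.Helper91.FU
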