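import Pool.Agent.Helper57.FU.RowM

/-!
Fused machine (MP_c75db0, star frame), row A: linear operations.
-/

set_option autoImplicit false
set_option exponentiation.threshold 100000
noncomputable section
namespace Pool.Agent.Helper91.FU

open Finset
open Pool.Agent.Helper91
open Pool.Agent.Helper90.KMT (PT)
open Pool.Agent.Helper90.KMO (UU UU_pos andB_t)
open Pool.Agent.Helper86.CX (andB)
open Pool.Agent.Helper86.CT (Mo)
open Pool.Agent.Helper91.TM (TP Sm Sz Sp Ev Nh zc tS vb xd ds SB)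
open Pool.Agent.Helper91.TMK (TOK)

variable {c c' : ℕ} {t : ℕ → ℝ} {f g : ℂ} {x y : FP}

theorem FV.congr (h : FV c t f x) (e : f = g) : FV c t g x := e ▸ h

theorem FR.mono {p q : ℕ → ℤ} {n : ℕ → ℕ} (h : FR c x p q n) (hc : c ≤ c') :
    FR c' x p q n := by
  have h1 : (c : ℤ) * 2 ^ 46 ≤ c' * 2 ^ 46 := by
    have : (c : ℤ) ≤ c' := by exact_mod_cast hc
    linarith
  exact ⟨h.a, h.b, h.d, h.sp, h.sq, fun i => (h.bp i).trans h1, fun i => (h.bq i).trans h1, h.h,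
    h.w.trans (Nat.mul_le_mul_right _ hc)⟩

theorem FV.mono (h : FV c t f x) (hc : c ≤ c') : FV c' t f x := by
  intro hk
  obtain ⟨p, q, n, h1, h2⟩ := h hk
  exact ⟨p, q, n, h1.mono hc, h2⟩

/-- digits with the offset are not negative -/
theorem dig_nn {p : ℕ → ℤ} (hp : Sp p) (hc : c ≤ 4) (h : ∀ i, |p i| ≤ c * 2 ^ 46) (i : ℕ) :
    0 ≤ p i + ov i := by
  unfold ov
  cases hv : vb i with
  | false => rw [hp i hv]; simp
  | true =>
    have h1 := (abs_le.1 (h i)).1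
    have h2 : (c : ℤ) ≤ 4 := by exact_mod_cast hc
    simp only [if_true]
    linarith

theorem Sz_nn {n : ℕ} {f : ℕ → ℤ} (h : ∀ i, 0 ≤ f i) : 0 ≤ Sz n f :=
  Finset.sum_nonneg fun i _ => mul_nonneg (h i) (by positivity)

/-- a number with given digits -/
theorem sub_z {a b : ℕ} {p : ℕ → ℤ} (h : (a : ℤ) - b = Sz 301 (fun i => p i + ov i))
    (hp : ∀ i, 0 ≤ p i + ov i) : ((Nat.sub a b : ℕ) : ℤ) = Sz 301 (fun i => p i + ov i) := by
  have h1 : (0 : ℤ) ≤ Sz 301 (fun i => p i + ov i) := Sz_nn hp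
  have h2 : b ≤ a := by
    rw [← h] at h1
    have : (b : ℤ) ≤ a := by linarith
    exact_mod_cast this
  have h3 : ((Nat.sub a b : ℕ) : ℤ) = (a : ℤ) - b := Nat.cast_sub h2
  rw [h3, h]

theorem Sm_z (m : ℕ) : Sm m (fun _ => 0) = 0 := by
  rw [TM.Sm_eq]
  exact Finset.sum_eq_zero fun i _ => by rw [zero_mul]

theorem FV_ze (t : ℕ → ℝ) : FV 0 t 0 zeF := by
  intro _
  have ez : ∀ i, zc (fun _ => 0) (fun _ => 0) i = 0 := fun i => by
    unfold zc
    push_cast
    ring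
  have e1 : (fO : ℤ) = Sz 301 (fun i => (0 : ℤ) + ov i) := by
    rw [fO_z]
    exact TM.Sz_congr fun i _ => (zero_add _).symm
  refine ⟨fun _ => 0, fun _ => 0, fun _ => 0, ⟨e1, e1, ?_, fun _ _ => rfl, fun _ _ => rfl,
    fun _ => by simp, fun _ => by simp, ?_, ?_⟩, ?_⟩
  · exact (Sm_z 8).symm
  · intro d _
    have : Nh (zc (fun _ => 0) (fun _ => 0)) d = 0 :=
      Finset.sum_eq_zero fun r _ => by rw [ez, norm_zero]
    rw [this]
    simp
  · unfold Wt
    rw [Finset.sum_eq_zero fun k _ => by rw [mul_zero]]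
    exact Nat.zero_le _
  · have : Ev (sS t) (zc (fun _ => 0) (fun _ => 0)) = 0 :=
      Finset.sum_eq_zero fun i _ => by rw [ez, zero_mul]
    rw [this]
    simp

/-- the digits of a constant -/
def o1 (v : ℤ) (i : ℕ) : ℤ := if i = 0 then v else 0

theorem zc_o1 (v : ℤ) (i : ℕ) : zc (o1 v) (fun _ => 0) i = if i = 0 then (v : ℂ) else 0 := by
  unfold zc o1
  split_ifs <;> simp

theorem Sz_o1 (v : ℤ) : Sz 301 (o1 v) = v := by
  unfold Sz
  rw [Finset.sum_eq_single 0]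
  · simp [o1]
  · intro i _ hi
    simp [o1, hi]
  · intro h
    exact absurd (Finset.mem_range.2 (by norm_num)) h

theorem mu_0 (s : ℕ → ℝ) : TM.mu s 0 = 1 := by
  have h0 : TM.x0 0 = 0 := rfl
  have h1 : TM.x1 0 = 0 := rfl
  have h2 : TM.x2 0 = 0 := rfl
  unfold TM.mu
  rw [h0, h1, h2]
  simp

theorem FV_one (t : ℕ → ℝ) : FV 1 t 1 oneF := by
  intro _
  have e1 : (fO : ℤ) = Sz 301 (fun i => (0 : ℤ) + ov i) := by
    rw [fO_z]
    exact TM.Sz_congr fun i _ => (zero_add _).symm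
  refine ⟨o1 (2 ^ 31), fun _ => 0, fun i => if i = 0 then 2 ^ 48 else 0, ⟨?_, e1, ?_, ?_,
    fun _ _ => rfl, ?_, fun _ => by simp, ?_, ?_⟩, ?_⟩
  · show ((fO + 2147483648 : ℕ) : ℤ) = _
    rw [TM.Sz_add, Sz_o1, ← fO_z]
    push_cast
    ring
  · show (281474976710656 : ℕ) = _
    rw [TM.Sm_eq]
    simp
  · intro i hi
    unfold o1
    rw [if_neg]
    rintro rfl
    exact absurd hi (by decide)
  · intro i
    unfold o1
    split_ifs <;> simp
  · intro d hd
    rcases Nat.eq_zero_or_pos d with rfl | h0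
    · have : Nh (zc (o1 (2 ^ 31)) (fun _ => 0)) 0 = 2 ^ 31 := by
        unfold Nh
        rw [Finset.sum_eq_single 0]
        · rw [zc_o1]
          simp
          norm_num
        · intro r _ hr
          rw [zc_o1, if_neg (by omega), norm_zero]
        · intro h
          exact absurd (Finset.mem_range.2 (by norm_num)) h
      rw [this]
      norm_num
    · have : Nh (zc (o1 (2 ^ 31)) (fun _ => 0)) d = 0 := by
        refine Finset.sum_eq_zero fun r _ => ?_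
        rw [zc_o1, if_neg (by omega), norm_zero]
      rw [this, mul_zero]
      positivity
  · unfold Wt
    simp
  · have : Ev (sS t) (zc (o1 (2 ^ 31)) (fun _ => 0)) = 2 ^ 31 := by
      unfold Ev
      rw [Finset.sum_eq_single 0]
      · rw [zc_o1, mu_0]
        simp
        norm_num
      · intro i _ hi
        rw [zc_o1, if_neg hi, zero_mul]
      · intro h
        exact absurd (Finset.mem_range.2 (by norm_num)) h
    rw [this]
    simp

theorem bd_add {p p' : ℕ → ℤ} (hp : ∀ i, |p i| ≤ c * 2 ^ 46) (hp' : ∀ i, |p' i| ≤ c' * 2 ^ 46) :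
    ∀ i, |p i + p' i| ≤ ((c + c' : ℕ) : ℤ) * 2 ^ 46 := by
  intro i
  have a := abs_add_le (p i) (p' i)
  have b := hp i
  have d := hp' i
  push_cast
  linarith
theorem bd_sub {p p' : ℕ → ℤ} (hp : ∀ i, |p i| ≤ c * 2 ^ 46) (hp' : ∀ i, |p' i| ≤ c' * 2 ^ 46) :
    ∀ i, |p i - p' i| ≤ ((c + c' : ℕ) : ℤ) * 2 ^ 46 := by
  intro i
  have a := abs_sub (p i) (p' i)
  have b := hp i
  have d := hp' i
  push_cast
  linarith

theorem Sp_sub' {p p' : ℕ → ℤ} (h : Sp p) (h' : Sp p') : Sp (fun i => p i - p' i) := by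
  intro i hi
  show p i - p' i = 0
  rw [h i hi, h' i hi, sub_zero]

theorem ea_add {O a b : ℕ} (hO : (O : ℤ) = Sz 301 ov) (h : c + c' ≤ 4) {p p' : ℕ → ℤ}
    (ha : (a : ℤ) = Sz 301 (fun i => p i + ov i)) (hb : (b : ℤ) = Sz 301 (fun i => p' i + ov i))
    (sp : Sp p) (sp' : Sp p') (hp : ∀ i, |p i| ≤ c * 2 ^ 46) (hp' : ∀ i, |p' i| ≤ c' * 2 ^ 46) :
    ((Nat.sub (Nat.add a b) O : ℕ) : ℤ) = Sz 301 (fun i => (p i + p' i) + ov i) := by
  refine sub_z ?_ (dig_nn (c := c + c') (TM.Sp_add sp sp') h (bd_add hp hp'))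
  have e : ((Nat.add a b : ℕ) : ℤ) = (a : ℤ) + b := Nat.cast_add a b
  rw [e, ha, hb, hO, ← TM.Sz_add, ← TM.Sz_sub]
  exact TM.Sz_congr fun i _ => by ring
theorem ea_sub {O a b : ℕ} (hO : (O : ℤ) = Sz 301 ov) (h : c + c' ≤ 4) {p p' : ℕ → ℤ}
    (ha : (a : ℤ) = Sz 301 (fun i => p i + ov i)) (hb : (b : ℤ) = Sz 301 (fun i => p' i + ov i))
    (sp : Sp p) (sp' : Sp p') (hp : ∀ i, |p i| ≤ c * 2 ^ 46) (hp' : ∀ i, |p' i| ≤ c' * 2 ^ 46) :
    ((Nat.sub (Nat.add a O) b : ℕ) : ℤ) = Sz 301 (fun i => (p i - p' i) + ov i) := by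
  refine sub_z ?_ (dig_nn (c := c + c') (Sp_sub' sp sp') h (bd_sub hp hp'))
  have e : ((Nat.add a O : ℕ) : ℤ) = (a : ℤ) + O := Nat.cast_add a O
  rw [e, ha, hb, hO, ← TM.Sz_add, ← TM.Sz_sub]
  exact TM.Sz_congr fun i _ => by ring
theorem ea_cj {O b : ℕ} (hO : (O : ℤ) = Sz 301 ov) (h : c ≤ 4) {p : ℕ → ℤ}
    (hb : (b : ℤ) = Sz 301 (fun i => p i + ov i)) (sp : Sp p) (hp : ∀ i, |p i| ≤ c * 2 ^ 46) :
    ((Nat.sub (Nat.add O O) b : ℕ) : ℤ) = Sz 301 (fun i => -p i + ov i) := by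
  have sq : Sp (fun i => -p i) := fun i hi => by
    show -p i = 0
    rw [sp i hi, neg_zero]
  refine sub_z ?_ (dig_nn sq h fun i => by rw [abs_neg]; exact hp i)
  have e : ((Nat.add O O : ℕ) : ℤ) = (O : ℤ) + O := Nat.cast_add O O
  rw [e, hb, hO, ← TM.Sz_add, ← TM.Sz_sub]
  exact TM.Sz_congr fun i _ => by ring

theorem FV.add (hx : FV c t f x) (hy : FV c' t g y) (h : c + c' ≤ 4) :
    FV (c + c') t (f + g) (addF x y) := by
  intro hk
  have hk' : andB x.k y.k = true := hk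
  obtain ⟨k1, k2⟩ := andB_t hk'
  obtain ⟨p, q, n, h1, h2⟩ := hx k1
  obtain ⟨p', q', n', h3, h4⟩ := hy k2
  refine ⟨fun i => p i + p' i, fun i => q i + q' i, fun i => n i + n' i, ⟨?_, ?_, ?_,
    TM.Sp_add h1.sp h3.sp, TM.Sp_add h1.sq h3.sq, bd_add h1.bp h3.bp, bd_add h1.bq h3.bq, ?_, ?_⟩, ?_⟩
  · have hO := fO_z
    unfold addF
    dsimp only
    generalize fO = O at hO ⊢
    exact ea_add hO h h1.a h3.a h1.sp h3.sp h1.bp h3.bp
  · have hO := fO_z
    unfold addF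
    dsimp only
    generalize fO = O at hO ⊢
    exact ea_add hO h h1.b h3.b h1.sq h3.sq h1.bq h3.bq
  · show x.d + y.d = _
    rw [h1.d, h3.d, TM.Sm_add]
  · intro d hd
    rw [zc_add]
    have a1 := h1.h d hd
    have a2 := h3.h d hd
    have a3 := Nh_add (zc p q) (zc p' q') d
    push_cast
    nlinarith
  · rw [Wt_add, add_mul]
    exact Nat.add_le_add h1.w h3.w
  · rw [zc_add, TM.Ev_add]
    have e : (2 : ℂ) ^ 31 * (f + g) - (Ev (sS t) (zc p q) + Ev (sS t) (zc p' q')) =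
        (2 ^ 31 * f - Ev (sS t) (zc p q)) + (2 ^ 31 * g - Ev (sS t) (zc p' q')) := by ring
    rw [e]
    refine (norm_add_le _ _).trans ?_
    push_cast
    rw [add_div]
    linarith

theorem zc_sub (p q p' q' : ℕ → ℤ) : zc (fun i => p i - p' i) (fun i => q i - q' i) =
    fun i => zc p q i - zc p' q' i := by
  funext i
  unfold zc
  push_cast
  ring

theorem Nh_sub (a b : ℕ → ℂ) (d : ℕ) : Nh (fun i => a i - b i) d ≤ Nh a d + Nh b d := by
  unfold Nh
  rw [← Finset.sum_add_distrib]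
  exact Finset.sum_le_sum fun r _ => norm_sub_le _ _

theorem Ev_sub' (s : ℕ → ℝ) (a b : ℕ → ℂ) : Ev s (fun i => a i - b i) = Ev s a - Ev s b := by
  unfold Ev
  rw [← Finset.sum_sub_distrib]
  exact Finset.sum_congr rfl fun i _ => by ring

theorem FV.sub (hx : FV c t f x) (hy : FV c' t g y) (h : c + c' ≤ 4) :
    FV (c + c') t (f - g) (subF x y) := by
  intro hk
  have hk' : andB x.k y.k = true := hk
  obtain ⟨k1, k2⟩ := andB_t hk'
  obtain ⟨p, q, n, h1, h2⟩ := hx k1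
  obtain ⟨p', q', n', h3, h4⟩ := hy k2
  refine ⟨fun i => p i - p' i, fun i => q i - q' i, fun i => n i + n' i, ⟨?_, ?_, ?_,
    Sp_sub' h1.sp h3.sp, Sp_sub' h1.sq h3.sq, bd_sub h1.bp h3.bp, bd_sub h1.bq h3.bq, ?_, ?_⟩, ?_⟩
  · have hO := fO_z
    show ((Nat.sub (Nat.add x.a fO) y.a : ℕ) : ℤ) = _
    generalize fO = O at hO ⊢
    exact ea_sub hO h h1.a h3.a h1.sp h3.sp h1.bp h3.bp
  · have hO := fO_z
    show ((Nat.sub (Nat.add x.b fO) y.b : ℕ) : ℤ) = _
    generalize fO = O at hO ⊢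
    exact ea_sub hO h h1.b h3.b h1.sq h3.sq h1.bq h3.bq
  · show x.d + y.d = _
    rw [h1.d, h3.d, TM.Sm_add]
  · intro d hd
    rw [zc_sub]
    have a1 := h1.h d hd
    have a2 := h3.h d hd
    have a3 := Nh_sub (zc p q) (zc p' q') d
    push_cast
    nlinarith
  · rw [Wt_add, add_mul]
    exact Nat.add_le_add h1.w h3.w
  · rw [zc_sub, Ev_sub']
    have e : (2 : ℂ) ^ 31 * (f - g) - (Ev (sS t) (zc p q) - Ev (sS t) (zc p' q')) =
        (2 ^ 31 * f - Ev (sS t) (zc p q)) - (2 ^ 31 * g - Ev (sS t) (zc p' q')) := by ring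
    rw [e]
    refine (norm_sub_le _ _).trans ?_
    push_cast
    rw [add_div]
    linarith

theorem FV.neg (hx : FV c t f x) (h : c ≤ 4) : FV c t (-f) (negF x) := by
  have h1 := (FV_ze t).sub hx (by omega : 0 + c ≤ 4)
  rw [zero_add, zero_sub] at h1
  exact h1

theorem Ev_star (s : ℕ → ℝ) (z : ℕ → ℂ) : Ev s (fun i => star (z i)) = star (Ev s z) := by
  unfold Ev
  rw [star_sum]
  refine Finset.sum_congr rfl fun i _ => ?_
  rw [star_mul']
  congr 1
  exact (Complex.conj_ofReal _).symm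

theorem FV.cj (hx : FV c t f x) (h : c ≤ 4) : FV c t (star f) (cjF x) := by
  intro hk
  have hk' : x.k = true := hk
  obtain ⟨p, q, n, h1, h2⟩ := hx hk'
  have ez : zc p (fun i => -q i) = fun i => star (zc p q i) := by
    funext i
    unfold zc
    rw [star_add, star_mul']
    simp
  refine ⟨p, fun i => -q i, n, ⟨h1.a, ?_, h1.d, h1.sp, ?_, h1.bp, ?_, ?_, h1.w⟩, ?_⟩
  · have hO := fO_z
    show ((Nat.sub (Nat.add fO fO) x.b : ℕ) : ℤ) = _
    generalize fO = O at hO ⊢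
    exact ea_cj hO h h1.b h1.sq h1.bq
  · intro i hi
    show -q i = 0
    rw [h1.sq i hi, neg_zero]
  · intro i
    rw [abs_neg]
    exact h1.bq i
  · intro d hd
    have : Nh (zc p (fun i => -q i)) d = Nh (zc p q) d := by
      rw [ez]
      exact Finset.sum_congr rfl fun r _ => norm_star _
    rw [this]
    exact h1.h d hd
  · rw [ez, Ev_star]
    have e : (2 : ℂ) ^ 31 * star f - star (Ev (sS t) (zc p q)) =
        star (2 ^ 31 * f - Ev (sS t) (zc p q)) := by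
      have e2 : star ((2 : ℂ) ^ 31) = 2 ^ 31 := by
        rw [star_pow]
        congr 1
        exact Complex.conj_ofReal 2
      rw [star_sub, star_mul', e2]
    rw [e, norm_star]
    exact h2

end Pool.Agent.Helper91.FU
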