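import Pool.Agent.Helper91.FU.E
import Pool.Agent.Helper91.TM.M
import Pool.Agent.Helper17.N9.N9B

/-!
Fused machine (MP_c75db0, star frame), real side: DEFINITIONS. The integer coefficients of a model:
`4 ^ d 2 ^ 31` times the coefficients of degree `d` of a polynomial in `s = 2 t - 1`, so the value is
taken at the point `s / 4`.
-/

set_option autoImplicit false
set_option exponentiation.threshold 100000
noncomputable section
namespace Pool.Agent.Helper91.FU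

open Finset
open Pool.Agent.Helper91
open Pool.Agent.Helper91.TM (Sm Sz Sp Ev Nh zc tS vb xd)
open Pool.Agent.Helper6.MONO.W2 (Mt)

/-- the point `(2 t - 1) / 4` -/
def sS (t : ℕ → ℝ) (j : ℕ) : ℝ := (2 * t j - 1) / 4
/-- the offset `2 ^ 48` of the digits in use -/
def ov (i : ℕ) : ℤ := if vb i = true then 2 ^ 48 else 0
/-- the majorant with the weights `4 ^ k` -/
def Wt (m : ℕ) (n : ℕ → ℕ) : ℕ := ∑ k ∈ range m, 4 ^ k * n k

/-- A ROUNDED MODEL with the integer coefficients `p + i q` and the majorant `n`; size `c` -/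
structure FR (c : ℕ) (x : FP) (p q : ℕ → ℤ) (n : ℕ → ℕ) : Prop where
  a : (x.a : ℤ) = Sz 301 (fun i => p i + ov i)
  b : (x.b : ℤ) = Sz 301 (fun i => q i + ov i)
  d : x.d = Sm 8 n
  sp : Sp p
  sq : Sp q
  bp : ∀ i, |p i| ≤ c * 2 ^ 46
  bq : ∀ i, |q i| ≤ c * 2 ^ 46
  h : ∀ d < 7, 2 ^ 17 * Nh (zc p q) d ≤ 4 ^ d * (n d : ℝ)
  w : Wt 8 n ≤ c * 2 ^ 64

/-- `x` is a model of the number `f` (value of a function at the parameters `t`) -/
def FV (c : ℕ) (t : ℕ → ℝ) (f : ℂ) (x : FP) : Prop :=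
  x.k = true → ∃ p q n, FR c x p q n ∧
    ‖2 ^ 31 * f - Ev (sS t) (zc p q)‖ ≤ (n 7 : ℝ) / 2 ^ 17

/-- A SUM OF PRODUCTS with the integer coefficients `p + i q` and the majorant `n`; size `c` -/
structure RR (c : ℕ) (u : RW) (p q : ℕ → ℤ) (n : ℕ → ℕ) : Prop where
  N : (u.N : ℤ) ≡ Sz 301 (fun i => p i + 2 ^ 80 * q i) [ZMOD 2 ^ (160 * 301)]
  D : u.D = Sm 15 n
  sp : Sp p
  sq : Sp q
  h : ∀ d < 7, 2 ^ 34 * Nh (zc p q) d ≤ 4 ^ d * (n d : ℝ)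
  w : Wt 15 n ≤ c * 2 ^ 128

/-- the tail of the majorant -/
def Tl (n : ℕ → ℕ) : ℕ := ∑ k ∈ range 8, n (7 + k)

def RV (c : ℕ) (t : ℕ → ℝ) (f : ℂ) (u : RW) : Prop :=
  u.k = true → ∃ p q n, RR c u p q n ∧
    ‖2 ^ 62 * f - Ev (sS t) (zc p q)‖ ≤ (Tl n : ℝ) / 2 ^ 34

/-! ### nodes -/

/-- the node `s = -1, 0, 1` -/
def ns (i : Fin 3) : ℝ := (i : ℝ) - 1
/-- the economized power of degree `≤ 2` -/
def ec (e : ℕ) (s : ℝ) : ℝ :=
  if e = 0 then 1 else if e = 1 then s else if e % 2 = 1 then 3 / 4 * s else s ^ 2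
/-- the value at a node of the economized polynomial -/
def Un (p : ℕ → ℝ) (i0 i1 i2 : Fin 3) : ℝ := ∑ i ∈ range 301, p i / 4 ^ xd i *
  (ec (TM.x0 i) (ns i0) * ec (TM.x1 i) (ns i1) * ec (TM.x2 i) (ns i2))
/-- a monomial with an exponent at least `3` -/
def cub (i : ℕ) : Prop := 3 ≤ TM.x0 i ∨ 3 ≤ TM.x1 i ∨ 3 ≤ TM.x2 i
instance (i : ℕ) : Decidable (cub i) := by unfold cub; infer_instance
/-- the bound of the error of the economization -/
def Cu (p : ℕ → ℝ) : ℝ := ∑ i ∈ range 301, if vb i = true ∧ cub i then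
  |p i| / 4 ^ xd i * (if xd i ≤ 4 then 1 / 4 else 1 / 2) else 0

/-- a packed number with the digits `p + 2 ^ 73`, `q + 2 ^ 73` -/
structure NY (Y : ℕ) (p q : ℕ → ℤ) : Prop where
  Y : Y = Sm 301 (fun i => if vb i = true then
    (p i + 2 ^ 73).toNat + 2 ^ 80 * (q i + 2 ^ 73).toNat else 0)
  sp : Sp p
  sq : Sp q
  bp : ∑ i ∈ range 301, |p i| ≤ 2 ^ 73 - 2 ^ 36
  bq : ∑ i ∈ range 301, |q i| ≤ 2 ^ 73 - 2 ^ 36

/-- the number of the node `i0` -/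
def uc (u : U3) (i : Fin 3) : ℕ := ![u.a, u.c, u.b] i

/-! ### matrices -/

/-- a matrix of sums of products -/
def RM (c : ℕ) (t : ℕ → ℝ) (M : Mt) (X : W9) : Prop :=
  RV c t (M 0 0) X.a ∧ RV c t (M 0 1) X.b ∧ RV c t (M 0 2) X.c ∧
  RV c t (M 1 0) X.d ∧ RV c t (M 1 1) X.e ∧ RV c t (M 1 2) X.f ∧
  RV c t (M 2 0) X.g ∧ RV c t (M 2 1) X.h ∧ RV c t (M 2 2) X.i

end Pool.Agent.Helper91.FU
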