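import Pool.Agent.Helper91.FU.X

/-!
Fused machine (MP_c75db0, star frame), row Y: the runs of the items.
-/

set_option autoImplicit false
noncomputable section
namespace Pool.Agent.Helper91.FU

open Matrix
open Pool.Agent.Helper91
open Pool.Agent.Helper90.KMT (PT)
open Pool.Agent.Helper90.KMO (UU UU_pos andB_t)
open Pool.Agent.Helper86.CT (Mo)
open Pool.Agent.Helper17.K9 (V9)
open Pool.Agent.Helper62.TVM (V3m)
open Pool.Agent.Helper26.XM (oJ oJ_mul mul_oJ tR uR)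
open Pool.Agent.Helper26.XH (FH sH xH xC uC)
open Pool.Agent.Helper51.FR (LM)
open Pool.Agent.Helper91.TM (TP lfT)
open Pool.Agent.Helper91.TMK (TOK TW TV)
open Pool.Agent.Helper91.TMK.XH (HOK)
open Pool.Agent.Helper91.TMK.FR (LOK)
open Pool.Agent.Helper6.MONO.W2 (Mt Sy brJ nW nWd ns nsd nc phi)

/-! ### conversions -/

theorem FW_to {t : ℕ → ℝ} {v : Fin 3 → ℂ} {V : V3m TP} (hP : PT 3 t) (h : TW 3 lfT t v V) :
    FW 1 t v (f3V V) := ⟨FV_to hP h.a, FV_to hP h.b, FV_to hP h.c⟩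
theorem FM_to {t : ℕ → ℝ} {M : Mt} {V : V9 TP} (hP : PT 3 t) (h : TV 3 lfT t M V) :
    FM 1 t M (f9V V) :=
  ⟨FV_to hP h.a, FV_to hP h.b, FV_to hP h.c, FV_to hP h.d, FV_to hP h.e, FV_to hP h.f,
    FV_to hP h.g, FV_to hP h.h, FV_to hP h.i⟩

/-- THE BOX -/
structure HQ (t : ℕ → ℝ) (v vd : Fin 3 → ℂ) (H : HF) : Prop where
  hv : FW 1 t v H.v
  hvd : FW 1 t vd H.vd
  hz : FV 1 t (brJ 1 vd v) H.z
/-- A LETTER -/
structure LQ (t : ℕ → ℝ) (φ : ℝ) (v vd : Fin 3 → ℂ) (g : Sy) (L : LF) : Prop where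
  hw : FV 1 t ((nW φ v g : ℝ) : ℂ) L.w
  hwd : FV 1 t ((nWd φ v vd g : ℝ) : ℂ) L.wd
  hs : FW 1 t (Pool.Agent.Helper6.MONO.W2.ns φ v g.1 g.2) L.s
  hsd : FW 1 t (nsd φ vd g.1 g.2) L.sd
  hn : FV 1 t (-(nc φ vd g.1 g.2 * star (nc φ v g.1 g.2))) L.n

variable {t : ℕ → ℝ} {v vd : Fin 3 → ℂ} {g : Sy} {p : ℕ} {φ ρ : ℝ}

theorem HQ_to (hP : PT 3 t) {F : FH TP} (h : HOK 3 lfT t v vd F) : HQ t v vd (toH F) :=
  ⟨FW_to hP h.hv, FW_to hP h.hvd, FV_to hP h.hz⟩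

theorem LQ_to (hP : PT 3 t) {L : LM TP} (h : LOK 3 lfT t p v vd g L) :
    LQ t (phi p) v vd g (toL L) := by
  have h1 : (1 : ℕ) ≤ 4 := by norm_num
  have hs := FW_to hP h.s
  have hsd := FW_to hP h.sd
  refine ⟨FV_to hP h.w, FV_to hP h.wd, hs, hsd, ?_⟩
  refine FV.congr (FV.rnd hP (RV.mul hP (hsd.a.neg h1) (hs.a.cj h1) h1 h1) (by norm_num)) ?_
  simp [Pool.Agent.Helper6.MONO.W2.ns, nsd]

/-! ### the runs -/

variable {H : HF} {L : LF} {r e a b : FP} {k : ℕ}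

theorem FV.sv (hP : PT 3 t) {x y f : ℂ} {X Y F : FP} (hx : FV 1 t x X) (hf : FV 2 t f F)
    (hy : FV 1 t y Y) : FV 1 t (x + y * f) (svF X F Y) :=
  FV.rnd hP ((RV.lif hx (by norm_num)).add (RV.muls hP hy hf (by norm_num) (by norm_num)))
    (by norm_num)

theorem sQ_ok (hP : PT 3 t) (hH : HQ t v vd H) (hL : LQ t φ v vd g L)
    (he : FV 2 t ((ρ - nW φ v g : ℝ) : ℂ) e) : FW 1 t (sH φ v g ρ) (sQ L H e) := by
  refine ⟨(FV.sv hP hL.hs.a he hH.hv.a).congr ?_, (FV.sv hP hL.hs.b he hH.hv.b).congr ?_,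
    (FV.sv hP hL.hs.c he hH.hv.c).congr ?_⟩ <;>
  · unfold sH
    simp only [Pi.sub_apply, Pi.smul_apply, smul_eq_mul]
    push_cast
    ring

theorem tQ_ok (hP : PT 3 t) (hL : LQ t φ v vd g L) (hr : FV 1 t ((ρ : ℝ) : ℂ) r)
    (he : FV 2 t ((ρ - nW φ v g : ℝ) : ℂ) e) : FV 1 t (tR φ v g ρ) (tQ L r e) := by
  refine FV.congr (FV.rnd hP ((RV.lif hL.hw (by norm_num)).add
    (RV.muls hP hr he (by norm_num) (by norm_num))) (by norm_num)) ?_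
  unfold tR
  push_cast
  ring

/-- the number `ρ z + n` -/
theorem hQ_ok (hP : PT 3 t) (hH : HQ t v vd H) (hr : FV 1 t ((ρ : ℝ) : ℂ) r) {n : ℂ} {N : FP}
    (hn : FV k t n N) (hk : k ≤ 2) : FV 1 t (brJ 1 vd v * ρ + n) (hQ H r N) :=
  FV.rnd hP ((RV.muls hP hH.hz hr (by norm_num) (by norm_num)).add (RV.lif hn (by omega)))
    (by omega)

theorem RV.xp (hP : PT 3 t) {x y z f h : ℂ} {X Y Z F K : FP} (hx : FV 1 t x X) (hf : FV 1 t f F)
    (hy : FV 1 t y Y) (hh : FV 1 t h K) (hz : FV 1 t z Z) :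
    RV 3 t (x + y * f + h * z) (xpR X F Y K Z) :=
  ((RV.lif hx (by norm_num)).add (RV.muls hP hy hf (by norm_num) (by norm_num))).add
    (RV.mul hP hh hz (by norm_num) (by norm_num))

theorem RV.xg (hP : PT 3 t) {x y z f h s g : ℂ} {X Y Z F K S G : FP} (hx : FV 1 t x X)
    (hf : FV 1 t f F) (hy : FV 1 t y Y) (hh : FV 1 t h K) (hz : FV 1 t z Z) (hs : FV 1 t s S)
    (hg : FV 1 t g G) : RV 4 t (x + y * f + h * z + s * g) (xgR X F Y K Z G S) :=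
  (RV.xp hP hx hf hy hh hz).add (RV.muls hP hs hg (by norm_num) (by norm_num))

theorem xP_ok (hP : PT 3 t) (hH : HQ t v vd H) (hL : LQ t φ v vd g L)
    (hr : FV 1 t ((ρ : ℝ) : ℂ) r) {h : ℂ} {K : FP} (hh : FV 1 t h K) :
    FW 1 t (nsd φ vd g.1 g.2 - (ρ : ℂ) • vd + h • v) (xP L H (negF r) K) := by
  have hn := hr.neg (by norm_num)
  refine ⟨(FV.rnd hP (RV.xp hP hL.hsd.a hn hH.hvd.a hh hH.hv.a) (by norm_num)).congr ?_,
    (FV.rnd hP (RV.xp hP hL.hsd.b hn hH.hvd.b hh hH.hv.b) (by norm_num)).congr ?_,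
    (FV.rnd hP (RV.xp hP hL.hsd.c hn hH.hvd.c hh hH.hv.c) (by norm_num)).congr ?_⟩ <;>
  · simp only [Pi.sub_apply, Pi.add_apply, Pi.smul_apply, smul_eq_mul]
    ring

theorem xE_ok (hP : PT 3 t) (hH : HQ t v vd H) (hL : LQ t φ v vd g L)
    (hr : FV 1 t ((ρ : ℝ) : ℂ) r) {h f : ℂ} {K G : FP} (hh : FV 1 t h K) (hf : FV 1 t f G)
    {s : Fin 3 → ℂ} {S : F3} (hs : FW 1 t s S) :
    FW 1 t (nsd φ vd g.1 g.2 - (ρ : ℂ) • vd + h • v + f • s) (xE L H (negF r) K G S) := by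
  have hn := hr.neg (by norm_num)
  refine ⟨(FV.rnd hP (RV.xg hP hL.hsd.a hn hH.hvd.a hh hH.hv.a hs.a hf) (by norm_num)).congr ?_,
    (FV.rnd hP (RV.xg hP hL.hsd.b hn hH.hvd.b hh hH.hv.b hs.b hf) (by norm_num)).congr ?_,
    (FV.rnd hP (RV.xg hP hL.hsd.c hn hH.hvd.c hh hH.hv.c hs.c hf) (by norm_num)).congr ?_⟩ <;>
  · simp only [Pi.sub_apply, Pi.add_apply, Pi.smul_apply, smul_eq_mul]
    ring

theorem e_ok (hL : LQ t φ v vd g L) (hr : FV 1 t ((ρ : ℝ) : ℂ) r) :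
    FV 2 t ((ρ - nW φ v g : ℝ) : ℂ) (subF r L.w) :=
  (hr.sub hL.hw (by norm_num)).congr (by push_cast; ring)

/-- `wd (ρ - 1)` -/
theorem RV.ud (hP : PT 3 t) (hL : LQ t φ v vd g L) (hr : FV 1 t ((ρ : ℝ) : ℂ) r) :
    RV 2 t ((nWd φ v vd g * ρ - nWd φ v vd g : ℝ) : ℂ) (mulS L.wd (subF r oneF)) :=
  (RV.muls hP hL.hwd (hr.sub (FV_one t) (by norm_num)) (by norm_num) (by norm_num)).congr
    (by push_cast; ring)

/-- `a1 = a2 = 0` -/
theorem qP_ok (hP : PT 3 t) (hH : HQ t v vd H) (hL : LQ t φ v vd g L)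
    (hr : FV 1 t ((ρ : ℝ) : ℂ) r) :
    QV t (sH φ v g ρ) (xH φ v vd g ρ 0 0) (tR φ v g ρ) (uR φ v vd g ρ 0 0) (qP H L r) := by
  have he := e_ok hL hr
  refine ⟨sQ_ok hP hH hL he, (xP_ok hP hH hL hr (hQ_ok hP hH hr hL.hn (by norm_num))).congr ?_,
    tQ_ok hP hL hr he, (FV.rnd hP (RV.ud hP hL hr) (by norm_num)).congr ?_⟩
  · unfold xH
    rw [mul_zero, mul_zero, Complex.ofReal_zero, sub_zero, zero_smul, add_zero]
    congr 2
    ring
  · unfold uR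
    push_cast
    ring

/-- `a2 = 0` -/
theorem qV_ok (hP : PT 3 t) (hH : HQ t v vd H) (hL : LQ t φ v vd g L)
    (hr : FV 1 t ((ρ : ℝ) : ℂ) r) {a1 : ℝ} (ha : FV 1 t ((a1 / 2 : ℝ) : ℂ) a) :
    QV t (sH φ v g ρ) (xH φ v vd g ρ a1 0) (tR φ v g ρ) (uR φ v vd g ρ a1 0) (qV H L a r) := by
  have he := e_ok hL hr
  have hs := sQ_ok hP hH hL he
  have ht := tQ_ok hP hL hr he
  have hg : FV 1 t ((1 / 2 * (nWd φ v vd g * a1) : ℝ) : ℂ) (rndR (mulS L.wd a)) :=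
    (FV.rnd hP (RV.muls hP hL.hwd ha (by norm_num) (by norm_num)) (by norm_num)).congr
      (by push_cast; ring)
  refine ⟨hs, (xE_ok hP hH hL hr (hQ_ok hP hH hr hL.hn (by norm_num)) hg hs).congr ?_,
    ht, ?_⟩
  · unfold xH
    rw [mul_zero, Complex.ofReal_zero, sub_zero]
    congr 3
    ring
  · refine (FV.rnd hP ((RV.ud hP hL hr).add (RV.muls hP ht
      ((hg.add hg (by norm_num)).neg (by norm_num)) (by norm_num) (by norm_num)))
      (by norm_num)).congr ?_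
    unfold tR uR
    push_cast
    ring

/-- the general case -/
theorem qE_ok (hP : PT 3 t) (hH : HQ t v vd H) (hL : LQ t φ v vd g L)
    (hr : FV 1 t ((ρ : ℝ) : ℂ) r) {a1 a2 : ℝ} (ha : FV 1 t ((a1 / 2 : ℝ) : ℂ) a)
    (hb : FV 1 t ((a2 : ℝ) : ℂ) b) :
    QV t (sH φ v g ρ) (xH φ v vd g ρ a1 a2) (tR φ v g ρ) (uR φ v vd g ρ a1 a2)
      (qE H L a b r) := by
  have he := e_ok hL hr
  have hs := sQ_ok hP hH hL he
  have ht := tQ_ok hP hL hr he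
  have hg : FV 1 t ((1 / 2 * (nWd φ v vd g * a1) : ℝ) : ℂ) (rndR (mulS L.wd a)) :=
    (FV.rnd hP (RV.muls hP hL.hwd ha (by norm_num) (by norm_num)) (by norm_num)).congr
      (by push_cast; ring)
  have hg' : FV 1 t ((nWd φ v vd g * a2 : ℝ) : ℂ) (rndR (mulS L.wd b)) :=
    (FV.rnd hP (RV.muls hP hL.hwd hb (by norm_num) (by norm_num)) (by norm_num)).congr
      (by push_cast; ring)
  refine ⟨hs, (xE_ok hP hH hL hr (hQ_ok hP hH hr (hL.hn.sub hg' (by norm_num)) (by norm_num))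
    hg hs).congr ?_, ht, ?_⟩
  · unfold xH
    congr 3
    ring
  · refine (FV.rnd hP (((RV.ud hP hL hr).add (RV.muls hP ht
      ((hg.add hg (by norm_num)).neg (by norm_num)) (by norm_num) (by norm_num))).add
      (RV.muls hP (hr.add he (by norm_num)) hg' (by norm_num) (by norm_num)))
      (by norm_num)).congr ?_
    unfold tR uR
    push_cast
    ring

theorem FV.xc (hP : PT 3 t) {s y c : ℂ} {S Y C : FP} (hs : FV 1 t s S) (hy : FV 1 t y Y)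
    (hc : FV 1 t c C) : FV 1 t (s / 2 + y * c) (xc1 S Y C) :=
  FV.rnd hP ((RV.haf hs (by norm_num)).add (RV.muls hP hy hc (by norm_num) (by norm_num)))
    (by norm_num)

/-- recession direction -/
theorem qC_ok (hP : PT 3 t) (hH : HQ t v vd H) (hL : LQ t φ v vd g L)
    (hr : FV 1 t ((ρ : ℝ) : ℂ) r) {rr : ℝ} (ha : FV 1 t ((rr : ℝ) : ℂ) a) :
    QV t (sH φ v g ρ) (xC φ v g ρ rr) (tR φ v g ρ) (uC φ v g ρ rr) (qC H L a r) := by
  have he := e_ok hL hr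
  have hs := sQ_ok hP hH hL he
  have ht := tQ_ok hP hL hr he
  have hn := ha.neg (by norm_num)
  refine ⟨hs, ⟨(FV.xc hP hs.a hH.hv.a hn).congr ?_, (FV.xc hP hs.b hH.hv.b hn).congr ?_,
    (FV.xc hP hs.c hH.hv.c hn).congr ?_⟩, ht, ?_⟩
  · unfold xC
    simp only [Pi.sub_apply, Pi.smul_apply, smul_eq_mul]
    ring
  · unfold xC
    simp only [Pi.sub_apply, Pi.smul_apply, smul_eq_mul]
    ring
  · unfold xC
    simp only [Pi.sub_apply, Pi.smul_apply, smul_eq_mul]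
    ring
  · refine (FV.rnd hP ((RV.muls hP (hr.add he (by norm_num)) ha (by norm_num) (by norm_num)).add
      (RV.lif (ht.neg (by norm_num)) (by norm_num))) (by norm_num)).congr ?_
    unfold uC
    push_cast
    ring

end Pool.Agent.Helper91.FU
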