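import Pool.Agent.Helper91.FU.K
import Pool.Agent.Helper26.TM.ITK
import Pool.Agent.Helper26.TM.TR

/-!
Fused machine (MP_c75db0, star frame), kernel side: THE DISPATCHER of the items of kinds `0` - `5` with
the fused machine; same data and same arguments as `TMK.IT.itK`.
-/

set_option autoImplicit false
noncomputable section
namespace Pool.Agent.Helper91.FU

open Pool.Agent.Helper86.C75 (Z)
open Pool.Agent.Helper86.CX (Cx andB)
open Pool.Agent.Helper86.CT (Mo Alg mk cst addM subM mulM conjM invM invOK)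
open Pool.Agent.Helper17.K9 (V9)
open Pool.Agent.Helper17.N9 (Kf Te Mn3 Mn4 tB NL Tr NV u8)
open Pool.Agent.Helper90.C9 (tfY)
open Pool.Agent.Helper62.TVM (V3m hfM)
open Pool.Agent.Helper62.LBM (RH rhM rhOK)
open Pool.Agent.Helper51.FR (LE LM)
open Pool.Agent.Helper26.XH (FH mth)
open Pool.Agent.Helper91.TM (AT TP)
open Pool.Agent.Helper91.TMK.IT (exOK)

/-- the tests of a block given by its matrices `M^`, `X^`: three parameters; four parameters
(`M^` at the parameters `0`, `1/2`, `1` of the family, then `X^`) -/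
structure TF (κ γ : Type) where
  t3 : κ → κ → γ → W9 → W9 → Bool
  t4 : κ → κ → γ → W9 → W9 → W9 → W9 → W9 → W9 → Bool

/-! ### conversions -/

def f3V (x : V3m TP) : F3 := ⟨toF x.a, toF x.b, toF x.c⟩
def f9V (x : V9 TP) : F9 :=
  ⟨toF x.a, toF x.b, toF x.c, toF x.d, toF x.e, toF x.f, toF x.g, toF x.h, toF x.i⟩
/-- the box -/
def toH (F : FH TP) : HF := ⟨f3V F.v, f3V F.vd, toF F.z⟩
def lf1 (w wd : FP) (s sd : F3) : LF := ⟨w, wd, s, sd, rndR (mulR (negF sd.a) (cjF s.a))⟩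
/-- a letter -/
def toL (L : LM TP) : LF := lf1 (toF L.w) (toF L.wd) (f3V L.s) (f3V L.sd)
/-- a real number `v / 2 ^ 31` with error at most `2 ^ (-31)`, modulus at most `n / 2 ^ 48` -/
def kG (v n : Nat) : FP :=
  ⟨Nat.add fO v, fO, Nat.add n (Nat.shiftLeft (nat_lit 1) (nat_lit 1137)),
    Nat.ble n (nat_lit 4611686018427387904)⟩
/-- `n / 2 ^ 48` -/
def kF (n : Nat) : FP := kG (Nat.shiftRight n (nat_lit 17)) n
/-- `n / 2 ^ 49` -/
def kH (n : Nat) : FP := kG (Nat.shiftRight n (nat_lit 18)) n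
/-- `1 / 3` (as in the exact data) -/
def rrF : FP := kF (nat_lit 93824992236886)
/-- `(1 / 3) n / 2 ^ 48` -/
def kR (n : Nat) : FP :=
  kG (Nat.shiftRight (Nat.mul (nat_lit 93824992236886) n) (nat_lit 65)) n

/-! ### the parts -/

section

variable {κ γ : Type}

/-- an exact run -/
def t3F (T : TF κ γ) (k1 k2 : κ) (g : γ) (L R : F9) (Q : QF) : Bool :=
  T.t3 k1 k2 g (QM Q) (QX L R Q)
/-- a rotation -/
def t3N (T : TF κ γ) (k1 k2 : κ) (g : γ) (L R M : F9) : Bool :=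
  T.t3 k1 k2 g (lifW M) (comW M L (neg9 R))
/-- a piece of a family; `p`, `q`, `r`: the data of the runs at the parameters `0`, `1/2`, `1` -/
def t4F (T : TF κ γ) (k1 k2 : κ) (g : γ) (L R : F9) (p q r : QF) : Bool :=
  T.t4 k1 k2 g (QM p) (QM q) (QM r) (QX L R p) (QX L R q) (QX L R r)
/-- a recession direction -/
def t4D (T : TF κ γ) (k1 k2 : κ) (g : γ) (p q r : QF) : Bool :=
  T.t4 k1 k2 g (QM p) (QM q) (QM r) (QD p) (QD q) (QD r)

/-- `ρ = (n / 2 ^ 48) ch` -/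
def roF (C : FP) (k : FP) : FP := rndR (mulS C k)

/-- kind 0 -/
def itR (T : TF κ γ) (F : FH TP) (L : LM TP) (c : Nat) (k1 k2 : κ) (Sl Sr : F9) (g : γ) : Bool :=
  andB (Nat.beq (Nat.mod (Nat.div c (nat_lit 2)) (nat_lit 2)) (nat_lit 0))
    (t3N T k1 k2 g Sl Sr (f9V (mth AT F L.P (conjM AT L.P))))
/-- the data of an exact run -/
def qR (F : FH TP) (L : LM TP) (x : RH TP) : QF :=
  qE (toH F) (toL L) (toF (hfM AT x.h)) (toF x.g) (toF x.r)
/-- kind 1 -/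
def itE (T : TF κ γ) (F : FH TP) (L : LM TP) (k1 k2 : κ) (Sl Sr : F9) (g : γ) (n : Nat) : Bool :=
  Nat.rec (motive := fun _ => Bool) false
    (fun m _ => andB (exOK AT L m)
      (t3F T k1 k2 g Sl Sr (qR F L (rhM AT L.w (invM AT L.w) m)))) n
/-- kind 2; `C`: model of `ch`, `a`, `b`: end points of the piece, units `2 ^ (-48)` -/
def itP (T : TF κ γ) (F : FH TP) (L : LM TP) (C : FP) (k1 k2 : κ) (Sl Sr : F9) (g : γ)
    (a b : Nat) : Bool :=
  t4F T k1 k2 g Sl Sr (qP (toH F) (toL L) (roF C (kF a)))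
    (qP (toH F) (toL L) (roF C (kH (Nat.add a b)))) (qP (toH F) (toL L) (roF C (kF b)))
/-- kind 3 -/
def itV (T : TF κ γ) (F : FH TP) (L : LM TP) (C : FP) (k1 k2 : κ) (Sl Sr : F9) (g : γ)
    (H a b : Nat) : Bool :=
  t4F T k1 k2 g Sl Sr (qV (toH F) (toL L) (kH H) (roF C (kF a)))
    (qV (toH F) (toL L) (kH H) (roF C (kH (Nat.add a b))))
    (qV (toH F) (toL L) (kH H) (roF C (kF b)))
/-- kind 4 -/
def itW (T : TF κ γ) (F : FH TP) (L : LM TP) (C : FP) (k1 k2 : κ) (Sl Sr : F9) (g : γ)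
    (H a b : Nat) : Bool :=
  t4F T k1 k2 g Sl Sr (qE (toH F) (toL L) (kH H) (kR H) (roF C (kF a)))
    (qE (toH F) (toL L) (kH H) (kR H) (roF C (kH (Nat.add a b))))
    (qE (toH F) (toL L) (kH H) (kR H) (roF C (kF b)))
/-- kind 5 -/
def itC (T : TF κ γ) (F : FH TP) (L : LM TP) (C : FP) (k1 k2 : κ) (g : γ) (a b : Nat) : Bool :=
  t4D T k1 k2 g (qC (toH F) (toL L) rrF (roF C (kF a)))
    (qC (toH F) (toL L) rrF (roF C (kH (Nat.add a b)))) (qC (toH F) (toL L) rrF (roF C (kF b)))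

/-- kinds 2 - 5 -/
def it5 (T : TF κ γ) (F : FH TP) (L : LM TP) (C : FP) (k1 k2 : κ) (Sl Sr : F9) (g : γ)
    (H k a b : Nat) : Bool :=
  cond (Nat.beq k (nat_lit 2)) (itP T F L C k1 k2 Sl Sr g a b)
    (cond (Nat.beq k (nat_lit 3)) (itV T F L C k1 k2 Sl Sr g H a b)
      (cond (Nat.beq k (nat_lit 4)) (itW T F L C k1 k2 Sl Sr g H a b)
        (cond (Nat.beq k (nat_lit 5)) (itC T F L C k1 k2 g a b) false)))
/-- the kinds, `k = P % 8`, `n = P / 8` -/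
def itD (T : TF κ γ) (F : FH TP) (L : LM TP) (E : LE) (C : Mo TP) (c : Nat) (k1 k2 : κ)
    (Sl Sr : V9 TP) (g : γ) (k n : Nat) : Bool :=
  cond (Nat.beq k (nat_lit 0)) (itR T F L c k1 k2 (f9V Sl) (f9V Sr) g)
    (cond (Nat.beq k (nat_lit 1)) (itE T F L k1 k2 (f9V Sl) (f9V Sr) g n)
      (it5 T F L (toF C) k1 k2 (f9V Sl) (f9V Sr) g E.e.H k (E.tau.getD n (nat_lit 0))
        (E.tau.getD (Nat.succ n) (nat_lit 0))))
/-- **ONE ITEM**: `F` box, `L` letter, `E` family, `C` model of `ch`, `c` code of the syllable,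
`P` code of the part, `Sl`, `Sr` models of `L^` and `R^` -/
def itF (T : TF κ γ) (F : FH TP) (L : LM TP) (E : LE) (C : Mo TP) (c P : Nat) (k1 k2 : κ)
    (Sl Sr : V9 TP) (g : γ) : Bool :=
  itD T F L E C c k1 k2 Sl Sr g (Nat.mod P (nat_lit 8)) (Nat.div P (nat_lit 8))

end

/-! ### the tests of K9, version 2 -/

def u3F (k1 k2 : Kf) (g : Te) (k : Nat) (M X : NV (Tr (Tr (Tr NL)))) : Bool :=
  andB (Nat.ble k (nat_lit 20)) (tB Mn3 tfY M X k1 k2 g)
def u4F (k1 k2 : Kf) (g : Te) (k : Nat) (M X : NV (Tr (Tr (Tr (Tr NL))))) : Bool :=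
  andB (Nat.ble k (nat_lit 20)) (tB Mn4 tfY M X k1 k2 g)
/-- THE TESTS -/
def TrF : TF Kf Te :=
  ⟨fun k1 k2 g M X => u3F k1 k2 g (u8 g.cs (nat_lit 32)) (nv3 M (u8 g.cs (nat_lit 32)))
      (nv3 X (u8 g.cs (nat_lit 32))),
    fun k1 k2 g M N P X Y Z => u4F k1 k2 g (u8 g.cs (nat_lit 32))
      (nv4 M N P (u8 g.cs (nat_lit 32))) (nv4 X Y Z (u8 g.cs (nat_lit 32)))⟩

end Pool.Agent.Helper91.FU
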