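import Pool.Agent.Helper91.FU.Y
import Pool.Agent.Helper91.FU.Q
import Pool.Agent.Helper17.FU.N4
import Pool.Agent.Helper26.TM.IT
import Pool.Agent.Helper17.N9.N9Y

/-!
Fused machine (MP_c75db0, star frame), row I: THE DISPATCHER of the items of kinds `0` - `5`.
-/

set_option autoImplicit false
noncomputable section
namespace Pool.Agent.Helper91.FU

open Matrix
open Pool.Agent.Helper91
open Pool.Agent.Helper90.KMT (PT)
open Pool.Agent.Helper90.KMO (UU UU_pos)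
open Pool.Agent.Helper86.CX (andB)
open Pool.Agent.Helper86.CT (Mo conjM invM invOK)
open Pool.Agent.Helper17.K9 (V9)
open Pool.Agent.Helper17.N9 (Kf KfM Te Mn3 Mn4 Mn3_ok Mn4_ok DlL_3 DlL_4 tB_ok ndw_k u8 ble_le)
open Pool.Agent.Helper62.TVM (V3m hfM)
open Pool.Agent.Helper62.LBM (RH rhM rhOK)
open Pool.Agent.Helper26.XM (oJ oJ_mul mul_oJ tR uR)
open Pool.Agent.Helper26.XH (FH sH xH xC uC hM hL hR hX mth hX_eq hM_rM hM_rD hM_rc hM_add)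
open Pool.Agent.Helper26.IT (NT_hat RL RL_K even_of condB Pd_k)
open Pool.Agent.Helper51.FR (LE LM RTK andB_t' KfM_tu)
open Pool.Agent.Helper91.BX (tu tu_lt Rg)
open Pool.Agent.Helper91.TM (AT TP lfT AT_ok)
open Pool.Agent.Helper91.TMK (TOK TW TV TOK_hf)
open Pool.Agent.Helper91.TMK.XM
open Pool.Agent.Helper91.TMK.XH (HOK)
open Pool.Agent.Helper91.TMK.FR (LOK)
open Pool.Agent.Helper91.TMK.IT (exOK exOK_ok rot_M ch_K chK)
open Pool.Agent.Helper21.SW (cK)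
open Pool.Agent.Helper6.MONO (V3)
open Pool.Agent.Helper6.MONO.W2 (Mt NT nX rM rMr rD rn nW nWd Sy sDm phi RPar sat Pd cs brJ rfJ_sqM
  nsd nc)

/-! ### quadratic functions of a parameter -/

/-- a quadratic function -/
def Qd (F : ℝ → Mt) : Prop := ∃ A B C : Mt, ∀ x : ℝ, F x = A + (x : ℂ) • B + ((x : ℂ) ^ 2) • C

variable {F G : ℝ → Mt}

theorem Qd.q3 (h : Qd F) {a b c x u : ℝ} (hx : x = a + (c - a) * u) (hb : b = (a + c) / 2) :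
    F x = q3 u (F a) (F b) (F c) := by
  obtain ⟨A, B, C, h⟩ := h
  subst hx
  subst hb
  unfold FU.q3
  simp only [h]
  ext i j
  simp only [Matrix.add_apply, Matrix.smul_apply, smul_eq_mul]
  push_cast
  ring

theorem Qd.add (h : Qd F) (h' : Qd G) : Qd (fun x => F x + G x) := by
  obtain ⟨A, B, C, h⟩ := h
  obtain ⟨A', B', C', h'⟩ := h'
  refine ⟨A + A', B + B', C + C', fun x => ?_⟩
  simp only [h, h', smul_add]
  abel
theorem Qd.mulR (h : Qd F) (L : Mt) : Qd (fun x => F x * L) := by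
  obtain ⟨A, B, C, h⟩ := h
  refine ⟨A * L, B * L, C * L, fun x => ?_⟩
  simp only [h, add_mul, smul_mul_assoc]
theorem Qd.mulL (h : Qd F) (R : Mt) : Qd (fun x => R * F x) := by
  obtain ⟨A, B, C, h⟩ := h
  refine ⟨R * A, R * B, R * C, fun x => ?_⟩
  simp only [h, mul_add, mul_smul_comm]
theorem Qd.neg (h : Qd F) : Qd (fun x => -F x) := by
  obtain ⟨A, B, C, h⟩ := h
  refine ⟨-A, -B, -C, fun x => ?_⟩
  simp only [h, smul_neg, neg_add]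
theorem Qd.sub (h : Qd F) (h' : Qd G) : Qd (fun x => F x - G x) := by
  simpa only [sub_eq_add_neg] using h.add h'.neg
theorem Qd_sc {f : ℝ → ℂ} {a b c : ℂ} (h : ∀ x : ℝ, f x = a + x * b + (x : ℂ) ^ 2 * c) :
    Qd (fun x => f x • (1 : Mt)) := by
  refine ⟨a • 1, b • 1, c • 1, fun x => ?_⟩
  simp only [h, add_smul, mul_smul]
theorem Qd_oJ {f g : ℝ → Fin 3 → ℂ} {a b c d : Fin 3 → ℂ} (h : ∀ x : ℝ, f x = a + (x : ℂ) • b)
    (h' : ∀ x : ℝ, g x = c + (x : ℂ) • d) : Qd (fun x => oJ (f x) (g x)) := by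
  refine ⟨oJ a c, oJ b c + oJ a d, oJ b d, fun x => ?_⟩
  simp only [h, h']
  ext i j
  fin_cases j <;> simp [oJ] <;> ring
theorem Qd.cm (h : Qd F) (y : ℝ) : Qd (fun x => F (y * x)) := by
  obtain ⟨A, B, C, h⟩ := h
  refine ⟨A, (y : ℂ) • B, ((y : ℂ) ^ 2) • C, fun x => ?_⟩
  simp only [h, smul_smul]
  push_cast
  congr 3 <;> ring

section
variable {φ : ℝ} {v vd : Fin 3 → ℂ} {g : Sy}

theorem sH_af (ρ : ℝ) : sH φ v g ρ = sH φ v g 0 + (ρ : ℂ) • v := by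
  ext i
  simp only [sH, Pi.add_apply, Pi.sub_apply, Pi.smul_apply, smul_eq_mul]
  push_cast
  ring
theorem xH_af (ρ a1 a2 : ℝ) : xH φ v vd g ρ a1 a2 = xH φ v vd g 0 a1 a2 +
    (ρ : ℂ) • (-vd + brJ 1 vd v • v + ((1 / 2 * (nWd φ v vd g * a1) : ℝ) : ℂ) • v) := by
  unfold xH
  rw [sH_af ρ]
  ext i
  simp only [Pi.add_apply, Pi.sub_apply, Pi.neg_apply, Pi.smul_apply, smul_eq_mul]
  push_cast
  ring
theorem xC_af (ρ rr : ℝ) : xC φ v g ρ rr = xC φ v g 0 rr + (ρ : ℂ) • ((1 / 2 : ℂ) • v) := by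
  unfold xC
  rw [sH_af ρ]
  ext i
  simp only [Pi.add_apply, Pi.sub_apply, Pi.smul_apply, smul_eq_mul]
  ring

theorem Qd_t : Qd (fun ρ => tR φ v g ρ • (1 : Mt)) :=
  Qd_sc (a := (nW φ v g : ℝ)) (b := -(nW φ v g : ℝ)) (c := 1) fun x => by
    unfold tR
    push_cast
    ring

theorem Qd_M : Qd (fun ρ => oJ (sH φ v g ρ) (sH φ v g ρ) - tR φ v g ρ • (1 : Mt)) :=
  (Qd_oJ sH_af sH_af).sub Qd_t

theorem Qd_D (a1 a2 : ℝ) : Qd (fun ρ => oJ (xH φ v vd g ρ a1 a2) (sH φ v g ρ) +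
    oJ (sH φ v g ρ) (xH φ v vd g ρ a1 a2) + uR φ v vd g ρ a1 a2 • (1 : Mt)) := by
  refine ((Qd_oJ (fun x => xH_af x a1 a2) sH_af).add (Qd_oJ sH_af (fun x => xH_af x a1 a2))).add
    (Qd_sc (a := ((-nWd φ v vd g - nWd φ v vd g * a1 * nW φ v g - nWd φ v vd g * a2 * nW φ v g
      : ℝ) : ℂ))
      (b := ((nWd φ v vd g + nWd φ v vd g * a1 * nW φ v g + 2 * (nWd φ v vd g * a2) : ℝ) : ℂ))
      (c := ((-(nWd φ v vd g * a1) : ℝ) : ℂ)) fun x => ?_)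
  unfold uR
  push_cast
  ring

theorem Qd_C (rr : ℝ) : Qd (fun ρ => oJ (xC φ v g ρ rr) (sH φ v g ρ) +
    oJ (sH φ v g ρ) (xC φ v g ρ rr) + uC φ v g ρ rr • (1 : Mt)) := by
  refine ((Qd_oJ (fun x => xC_af x rr) sH_af).add (Qd_oJ sH_af (fun x => xC_af x rr))).add
    (Qd_sc (a := ((-(rr * nW φ v g) - nW φ v g : ℝ) : ℂ)) (b := ((2 * rr + nW φ v g : ℝ) : ℂ))
      (c := -1) fun x => ?_)
  unfold uC tR
  push_cast
  ring
end

/-! ### the laws of the tests -/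

/-- THE LAWS OF THE TESTS OF K9, VERSION 2 -/
theorem TrF_ok : TFL KfM TrF where
  t3 {k1 k2 g M X t Mr Xr} h hP hM hX := by
    obtain ⟨h1, h2⟩ := andB_t' (show andB (Nat.ble (u8 g.cs 32) 20) _ = true from h)
    have hk : u8 g.cs 32 ≤ 20 := ble_le h1
    exact tB_ok Mn3_ok DlL_3 (by norm_num) hP (fun _ => rfl) (nv3_ok (by norm_num) hk hP hM)
      (nv3_ok (by norm_num) hk hP hX) h2
  t4 {k1 k2 g M N P X Y Z t u Mr Xr m n p x y z} h hP hP4 hM hN hP' eM hX hY hZ eX := by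
    obtain ⟨h1, h2⟩ := andB_t' (show andB (Nat.ble (u8 g.cs 32) 20) _ = true from h)
    have hk : u8 g.cs 32 ≤ 20 := ble_le h1
    have h3 := tB_ok Mn4_ok DlL_4 (le_refl 4) hP4 (fun G => ndw_k 3 _ G)
      (nv4_ok (by norm_num) hk hP4 eM hM hN hP') (nv4_ok (by norm_num) hk hP4 eX hX hY hZ) h2
    rwa [KfM_tu, KfM_tu] at h3

/-! ### the items -/

section

variable {κ γ : Type} {U : TF κ γ} {KV : κ → (ℕ → ℝ) → Mt} {t : ℕ → ℝ} {p : ℕ}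
  {v vd : V3} {S S' : Mt} {A B : F9} {k1 k2 : κ} {d : γ} {φ : ℝ} {g : Sy}

/-- an exact run -/
theorem t3F_ok (hT : TFL KV U) (hP : PT 3 t) (h2 : brJ 1 v v = 2) (hl : FM 1 t (hL v vd S) A)
    (hr : FM 1 t (hR v vd S') B) {ρ a1 a2 : ℝ} {Q : QF} (hQ : QV t (sH φ v g ρ)
      (xH φ v vd g ρ a1 a2) (tR φ v g ρ) (uR φ v vd g ρ a1 a2) Q)
    (h : t3F U k1 k2 d A B Q = true) :
    NT (cK v (KV k1 t)) (cK v (KV k2 t)) (nX v vd (rM φ v g ρ) (rD φ v vd g ρ a1 a2) S S')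
      (rM φ v g ρ) := by
  refine NT_hat h2 (hT.t3 h hP (RM_congr (RM_mono (QM_ok hP hQ) (by norm_num))
    (hM_rM h2 φ g ρ).symm) (RM_congr (QX_ok hP hQ hl hr) ?_))
  show _ = hX v vd (rM φ v g ρ) (rD φ v vd g ρ a1 a2) S S'
  rw [hX_eq (rfJ_sqM h2), hM_rM h2, hM_rD h2]

/-- a rotation -/
theorem t3N_ok (hT : TFL KV U) (hP : PT 3 t) (h2 : brJ 1 v v = 2) (hl : FM 1 t (hL v vd S) A)
    (hr : FM 1 t (hR v vd S') B) {M : Mt} {C : F9} (hM' : FM 1 t (hM v M) C)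
    (h : t3N U k1 k2 d A B C = true) :
    NT (cK v (KV k1 t)) (cK v (KV k2 t)) (nX v vd M 0 S S') M := by
  have h1 : (1 : ℕ) ≤ 4 := by norm_num
  refine NT_hat h2 (hT.t3 h hP (RM_mono (RM_lif hM' h1) (by norm_num))
    (RM_congr (RM_mono (RM_com hP hM' hl (hr.neg h1)) (by norm_num)) ?_))
  show _ = hX v vd M 0 S S'
  have h0 : hM v 0 = 0 := by
    unfold hM
    rw [mul_zero, zero_mul]
  rw [hX_eq (rfJ_sqM h2), h0, zero_add, neg_mul, sub_eq_add_neg]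

/-- a piece of a family; `f`: the value of `ρ` -/
theorem t4F_ok (hT : TFL KV U) (hP : PT 3 t) {u : ℝ} (hP4 : PT 4 (tu 3 t u)) (h2 : brJ 1 v v = 2)
    (hl : FM 1 t (hL v vd S) A) (hr : FM 1 t (hR v vd S') B) {a1 a2 x y z ρ : ℝ} {P Q R : QF}
    (hp : QV t (sH φ v g x) (xH φ v vd g x a1 a2) (tR φ v g x) (uR φ v vd g x a1 a2) P)
    (hq : QV t (sH φ v g y) (xH φ v vd g y a1 a2) (tR φ v g y) (uR φ v vd g y a1 a2) Q)
    (hr' : QV t (sH φ v g z) (xH φ v vd g z a1 a2) (tR φ v g z) (uR φ v vd g z a1 a2) R)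
    (e1 : ρ = x + (z - x) * u) (e2 : y = (x + z) / 2) (h : t4F U k1 k2 d A B P Q R = true) :
    NT (cK v (KV k1 t)) (cK v (KV k2 t)) (nX v vd (rM φ v g ρ) (rD φ v vd g ρ a1 a2) S S')
      (rM φ v g ρ) := by
  have m := fun {ρ : ℝ} {Q : QF} (hQ : QV t (sH φ v g ρ) (xH φ v vd g ρ a1 a2) (tR φ v g ρ)
      (uR φ v vd g ρ a1 a2) Q) => RM_mono (QM_ok hP hQ) (show 2 ≤ 7 by norm_num)
  refine NT_hat h2 (hT.t4 h hP hP4 (m hp) (m hq) (m hr') ?_ (QX_ok hP hp hl hr)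
    (QX_ok hP hq hl hr) (QX_ok hP hr' hl hr) ?_)
  · show hM v (rM φ v g ρ) = _
    rw [hM_rM h2]
    exact Qd_M.q3 e1 e2
  · show hX v vd (rM φ v g ρ) (rD φ v vd g ρ a1 a2) S S' = _
    rw [hX_eq (rfJ_sqM h2), hM_rM h2, hM_rD h2]
    exact (((Qd_D (φ := φ) (v := v) (vd := vd) (g := g) a1 a2).add
      ((Qd_M (φ := φ) (v := v) (g := g)).mulR (hL v vd S))).sub
      ((Qd_M (φ := φ) (v := v) (g := g)).mulL (hR v vd S'))).q3 e1 e2

/-- a recession direction -/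
theorem t4D_ok (hT : TFL KV U) (hP : PT 3 t) {u : ℝ} (hP4 : PT 4 (tu 3 t u)) (h2 : brJ 1 v v = 2)
    {rr x y z ρ : ℝ} {P Q R : QF}
    (hp : QV t (sH φ v g x) (xC φ v g x rr) (tR φ v g x) (uC φ v g x rr) P)
    (hq : QV t (sH φ v g y) (xC φ v g y rr) (tR φ v g y) (uC φ v g y rr) Q)
    (hr' : QV t (sH φ v g z) (xC φ v g z rr) (tR φ v g z) (uC φ v g z rr) R)
    (e1 : ρ = x + (z - x) * u) (e2 : y = (x + z) / 2) (h : t4D U k1 k2 d P Q R = true) :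
    NT (cK v (KV k1 t)) (cK v (KV k2 t)) (rM φ v g ρ + ((rr : ℝ) : ℂ) • rMr φ v g ρ)
      (rM φ v g ρ) := by
  have m := fun {ρ : ℝ} {Q : QF} (hQ : QV t (sH φ v g ρ) (xC φ v g ρ rr) (tR φ v g ρ)
      (uC φ v g ρ rr) Q) => RM_mono (QM_ok hP hQ) (show 2 ≤ 7 by norm_num)
  have n := fun {ρ : ℝ} {Q : QF} (hQ : QV t (sH φ v g ρ) (xC φ v g ρ rr) (tR φ v g ρ)
      (uC φ v g ρ rr) Q) => RM_mono (QD_ok hP hQ) (show 3 ≤ 7 by norm_num)
  refine NT_hat h2 (hT.t4 h hP hP4 (m hp) (m hq) (m hr') ?_ (n hp) (n hq) (n hr') ?_)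
  · show hM v (rM φ v g ρ) = _
    rw [hM_rM h2]
    exact Qd_M.q3 e1 e2
  · show hM v (rM φ v g ρ + ((rr : ℝ) : ℂ) • rMr φ v g ρ) = _
    rw [hM_rc h2]
    exact (Qd_C rr).q3 e1 e2

theorem FV.ro (hP : PT 3 t) {c x : ℝ} {C K : FP} (hC : FV 1 t ((c : ℝ) : ℂ) C)
    (hK : FV 1 t ((x : ℝ) : ℂ) K) : FV 1 t ((c * x : ℝ) : ℂ) (roF C K) :=
  FV.congr (FV.rnd hP (RV.muls hP hC hK (by norm_num) (by norm_num)) (by norm_num))
    (by push_cast; ring)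

/-- the parameter of a piece -/
theorem par_ex (hP : PT 3 t) {τ : ℝ} {a b : ℕ} (h1 : (a : ℝ) / UU ≤ τ) (h2 : τ ≤ (b : ℝ) / UU) :
    ∃ u : ℝ, PT 4 (tu 3 t u) ∧ τ = a / UU + (b / UU - a / UU) * u := by
  have hU : UU = 2 ^ 48 := by unfold UU; norm_num
  rw [hU] at h1 h2 ⊢
  rw [div_le_iff₀ (by positivity)] at h1
  rw [le_div_iff₀ (by positivity)] at h2
  have hr : Rg τ a b 0 := Rg.of_mem (by linarith) (by linarith)
  obtain ⟨u, h0, h1', h3⟩ := hr.par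
  refine ⟨u, Pool.Agent.Helper91.BX.PT.tu hP (by norm_num) h0 h1', ?_⟩
  have h4 : (2 : ℝ) ^ 48 * τ - ((1 - u) * a + u * b) = 0 := by
    rw [Nat.cast_zero] at h3
    exact abs_eq_zero.1 (le_antisymm h3 (abs_nonneg _))
  field_simp
  linarith

/-- **THE DISPATCHER** -/
theorem itF_ok (hT : TFL KV U) (hP : PT 3 t) (h2 : brJ 1 v v = 2) {F : FH TP}
    (hF : HOK 3 lfT t v vd F) {L : LM TP} {E : LE} {R : RPar} {C : Mo TP} {Sl Sr : V9 TP}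
    {c : ℕ} (hG : LOK 3 lfT t p v vd (cs c) L) (hR' : RL R (cs c) E)
    (hC : TOK 3 lfT t ((R.ch (cs c) : ℝ) : ℂ) C) (hl : TV 3 lfT t (hL v vd S) Sl)
    (hr : TV 3 lfT t (hR v vd S') Sr) {P : ℕ}
    (h : itF U F L E C c P k1 k2 Sl Sr d = true) :
    sat R (phi p) v vd (cs c) (Pd P) (cK v (KV k1 t)) (cK v (KV k2 t)) S S' := by
  have e : ∀ {a : ℕ}, Nat.beq (Nat.mod P (nat_lit 8)) a = true → P % 8 = a := fun h =>
    Nat.eq_of_beq_eq_true h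
  have hH := HQ_to hP hF
  have hL' := LQ_to hP hG
  have hA := FM_to hP hl
  have hB := FM_to hP hr
  have hc := FV_to hP hC
  unfold itF itD at h
  rcases condB h with ⟨hk, h⟩ | h
  · rw [Pd_k, e hk]
    obtain ⟨b1, b2⟩ := andB_t' h
    exact t3N_ok hT hP h2 hA hB (FM_to hP (rot_M AT_ok hP hF hG (even_of b1))) b2
  rcases condB h with ⟨hk, h⟩ | h
  · rw [Pd_k, e hk]
    show NT _ _ (nX v vd (rM (phi p) v (cs c) (rn (nW (phi p) v (cs c)) (P / 8)))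
      (rD (phi p) v vd (cs c) (rn (nW (phi p) v (cs c)) (P / 8))
        (Pool.Agent.Helper6.MONO.W2.h1 (nW (phi p) v (cs c)) (P / 8))
        (Pool.Agent.Helper6.MONO.W2.h2 (nW (phi p) v (cs c)) (P / 8))) S S')
      (rM (phi p) v (cs c) (rn (nW (phi p) v (cs c)) (P / 8)))
    have h' : itE U F L k1 k2 (f9V Sl) (f9V Sr) d (P / 8) = true := h
    generalize P / 8 = n at h' ⊢
    cases n with
    | zero => exact absurd h' Bool.false_ne_true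
    | succ m =>
      obtain ⟨b1, b2⟩ := andB_t' (show andB (exOK AT L m) (t3F U k1 k2 d (f9V Sl) (f9V Sr)
        (qR F L (rhM AT L.w (invM AT L.w) m))) = true from h')
      have hx := exOK_ok AT_ok hP hG.w b1
      exact t3F_ok hT hP h2 hA hB (qE_ok hP hH hL' (FV_to hP hx.r) (FV_to hP (TOK.congr
        (TOK_hf AT_ok hP hx.h) (by push_cast; ring))) (FV_to hP hx.g)) b2
  have h : it5 U F L (toF C) k1 k2 (f9V Sl) (f9V Sr) d E.e.H (P % 8)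
      (E.tau.getD (P / 8) (nat_lit 0)) (E.tau.getD (Nat.succ (P / 8)) (nat_lit 0)) = true := h
  unfold it5 at h
  -- the values of `ρ`
  have ro : ∀ {τ : ℝ}, R.τ (cs c) (P / 8) ≤ τ → τ ≤ R.τ (cs c) (P / 8 + 1) → ∃ u x y z : ℝ,
      PT 4 (tu 3 t u) ∧ τ * R.ch (cs c) = x + (z - x) * u ∧ y = (x + z) / 2 ∧
      FV 1 t ((x : ℝ) : ℂ) (roF (toF C) (kF (E.tau.getD (P / 8) (nat_lit 0)))) ∧
      FV 1 t ((y : ℝ) : ℂ) (roF (toF C) (kH (Nat.add (E.tau.getD (P / 8) (nat_lit 0))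
        (E.tau.getD (Nat.succ (P / 8)) (nat_lit 0))))) ∧
      FV 1 t ((z : ℝ) : ℂ) (roF (toF C) (kF (E.tau.getD (Nat.succ (P / 8)) (nat_lit 0)))) := by
    intro τ b1 b2
    rw [hR'.τ] at b1 b2
    obtain ⟨u, hu, eu⟩ := par_ex (t := t) hP b1 b2
    refine ⟨u, _, _, _, hu, ?_, ?_, FV.ro hP hc (FV_kF _), FV.ro hP hc (FV_kH _),
      FV.ro hP hc (FV_kF _)⟩
    · rw [eu]
      ring
    · show R.ch (cs c) * (((E.tau.getD (P / 8) (nat_lit 0) + E.tau.getD (Nat.succ (P / 8))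
        (nat_lit 0) : ℕ) : ℝ) / UU / 2) = _
      push_cast
      ring
  have eH : FV 1 t ((R.H (cs c) / 2 : ℝ) : ℂ) (kH E.e.H) := by
    rw [hR'.H]
    exact FV_kH _
  rcases condB h with ⟨hk, h⟩ | h
  · rw [Pd_k, e hk]
    intro τ b1 b2
    obtain ⟨u, x, y, z, hP4, e1, e2, hx, hy, hz⟩ := ro b1 b2
    exact t4F_ok hT hP hP4 h2 hA hB (qP_ok hP hH hL' hx) (qP_ok hP hH hL' hy)
      (qP_ok hP hH hL' hz) e1 e2 h
  rcases condB h with ⟨hk, h⟩ | h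
  · rw [Pd_k, e hk]
    intro τ b1 b2
    obtain ⟨u, x, y, z, hP4, e1, e2, hx, hy, hz⟩ := ro b1 b2
    exact t4F_ok hT hP hP4 h2 hA hB (qV_ok hP hH hL' hx eH) (qV_ok hP hH hL' hy eH)
      (qV_ok hP hH hL' hz eH) e1 e2 h
  rcases condB h with ⟨hk, h⟩ | h
  · rw [Pd_k, e hk]
    intro τ b1 b2
    obtain ⟨u, x, y, z, hP4, e1, e2, hx, hy, hz⟩ := ro b1 b2
    have eR : FV 1 t ((R.rr * R.H (cs c) : ℝ) : ℂ) (kR E.e.H) := by
      rw [hR'.H, hR'.rr]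
      exact FV_kR _
    exact t4F_ok hT hP hP4 h2 hA hB (qE_ok hP hH hL' hx eH eR) (qE_ok hP hH hL' hy eH eR)
      (qE_ok hP hH hL' hz eH eR) e1 e2 h
  rcases condB h with ⟨hk, h⟩ | h
  · rw [Pd_k, e hk]
    intro τ b1 b2
    obtain ⟨u, x, y, z, hP4, e1, e2, hx, hy, hz⟩ := ro b1 b2
    have eR : FV 1 t ((R.rr : ℝ) : ℂ) rrF := by
      rw [hR'.rr]
      exact FV_rr
    exact t4D_ok hT hP hP4 h2 (qC_ok hP hH hL' hx eR) (qC_ok hP hH hL' hy eR)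
      (qC_ok hP hH hL' hz eR) e1 e2 h
  exact absurd h Bool.false_ne_true

/-- **THE DISPATCHER FOR THE TABLE `RTK`** -/
theorem itF_K (hT : TFL KV U) (hP : PT 3 t) (h2 : brJ 1 v v = 2) {F : FH TP}
    (hF : HOK 3 lfT t v vd F) {L : LM TP} {Sl Sr : V9 TP}
    {tb : ℕ → LE} {bc : ℕ → ℕ → Prop} {c : ℕ} (hG : LOK 3 lfT t p v vd (cs c) L)
    (hl : TV 3 lfT t (hL v vd S) Sl) (hr : TV 3 lfT t (hR v vd S') Sr) {P : ℕ}
    (h : itF U F L (tb c) (chK AT c (tb c) L.w) c P k1 k2 Sl Sr d = true) :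
    sat (RTK tb (nW (phi p) v) bc) (phi p) v vd (cs c) (Pd P) (cK v (KV k1 t)) (cK v (KV k2 t))
      S S' :=
  itF_ok hT hP h2 hF hG (RL_K tb _ bc c) (ch_K AT_ok hP hG.w) hl hr h

end

end Pool.Agent.Helper91.FU
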