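import Pool.Agent.Helper91.FU.I
import Pool.Agent.Helper38.FI.FIC

/-!
Fused machine (MP_c75db0, star frame), row J: the laws of the item tests of a cell; a piece of the
window from the tests of a cell, for any item tests which have the laws.
-/

set_option autoImplicit false
noncomputable section
namespace Pool.Agent.Helper91.FU

open Pool.Agent.Helper90.KMT (PT)
open Pool.Agent.Helper86.CX (andB)
open Pool.Agent.Helper17.K9 (V9)
open Pool.Agent.Helper17.N9 (Kf KfM)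
open Pool.Agent.Helper26.SF (Sf)
open Pool.Agent.Helper26.IT (condB)
open Pool.Agent.Helper38.FI (incK incK_ok)
open Pool.Agent.Helper62.NBD (GB)
open Pool.Agent.Helper91.BX (PcG)
open Pool.Agent.Helper91.TM
open Pool.Agent.Helper91.TMK (nM TV)
open Pool.Agent.Helper26.XH (hL hR)
open Pool.Agent.Helper91.TMK.NBX (gbB itGI itl_G)
open Pool.Agent.Helper91.TMK.SW
open Pool.Agent.Helper62.NBW (nth)
open Pool.Agent.Helper6.MONO (fB V3)
open Pool.Agent.Helper6.MONO.W2 (Mt phi nW sat Pd cs)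
open Pool.Agent.Helper6.MONO.W2.TY (r4T)
open Pool.Agent.Helper21.SW (Mu SE cK)
open Pool.Agent.Helper21.TC
open Pool.Agent.Helper51.FR (RTK)

section

variable {γ : Type} {C : Cel Kf} {q r : ℕ} {x : ℝ} {t : ℕ → ℝ}

/-- an item of kind `0` - `5` -/
theorem aF_ok {γ' : Type} {U : TF Kf γ'} (hU : TFL KV U) (hC : PtC lfT MT C q r x t)
    {bc : ℕ → ℕ → Prop} {c P i j : ℕ} {Sl Sr : V9 TP} {g : γ'} {S S' : Mt}
    (h : aF MT U C c P i j Sl Sr g = true)
    (hl : TV 3 lfT t (hL (vX C q r x) (wX C q r x) S) Sl)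
    (hr : TV 3 lfT t (hR (vX C q r x) (wX C q r x) S') Sr) :
    sat (RTK C.tb (nW (phi C.D.p) (vX C q r x)) bc) (phi C.D.p) (vX C q r x) (wX C q r x) (cs c)
      (Pd P) (cK (vX C q r x) (KV (C.fo i) t)) (cK (vX C q r x) (KV (C.fo j) t)) S S' :=
  itF_K hU hC.hP hC.two hC.H (Cel.L_cs hC c) hl hr h

/-- **THE LAWS OF THE ITEMS WITH AND WITHOUT THE FUSED MACHINE** -/
theorem itl_GH {U : TF Kf γ} {T : TK TP Kf γ} (hU : TFL KV U) (hT : TKL lfT (nM 3 lfT) KV T)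
    (hC : PtC lfT MT C q r x t) {d : GB TP} (hdc : lfT.vl d.nd.c)
    (hds : lfT.vl d.nd.s) (hb : C.D.gb = true → gbB MT C d = true) : ∃ bc : ℕ → ℕ → Prop,
      (C.D.gb = true → ∀ n, C.D.nB < n → ∃ i < C.D.NB, bc i n) ∧
      ITL lfT KV (itGI MT T d) C q r x t (RTK C.tb (nW (phi C.D.p) (vX C q r x)) bc) ∧
      ITL lfT KV (itGIF MT U T d) C q r x t (RTK C.tb (nW (phi C.D.p) (vX C q r x)) bc) := by
  obtain ⟨bc, h1, H⟩ := itl_G MT_ok hT hC hdc hds hb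
  refine ⟨bc, h1, H, ⟨?_, fun h => H.i h⟩⟩
  intro c P i j Sl Sr gs S S' hk hl hr
  have hk' : cond (Nat.ble (nat_lit 6) (Nat.mod P (nat_lit 8))) _ _ = true := hk
  cases h6 : Nat.ble (nat_lit 6) (Nat.mod P (nat_lit 8)) with
  | true =>
    rw [h6] at hk'
    refine H.k (g := gs) (Sl := Sl) (Sr := Sr) ?_ hl hr
    show cond (Nat.ble (nat_lit 6) (Nat.mod P (nat_lit 8))) _ _ = true
    rw [h6]
    exact hk'
  | false =>
    rw [h6] at hk'
    obtain ⟨y, _, g5⟩ := Pool.Agent.Helper62.NBW.nth_t (show nth gs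
      (fun g => aF MT U C c P i j Sl Sr g) (nat_lit 0) = true from hk')
    exact aF_ok hU hC g5 hl hr

/-- **THE LAWS OF THE ITEMS WITH THE FUSED MACHINE** -/
theorem itl_GF {U : TF Kf γ} {T : TK TP Kf γ} (hU : TFL KV U) (hT : TKL lfT (nM 3 lfT) KV T)
    (hC : PtC lfT MT C q r x t) {d : GB TP} (hdc : lfT.vl d.nd.c)
    (hds : lfT.vl d.nd.s) (hb : C.D.gb = true → gbB MT C d = true) : ∃ bc : ℕ → ℕ → Prop,
      (C.D.gb = true → ∀ n, C.D.nB < n → ∃ i < C.D.NB, bc i n) ∧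
      ITL lfT KV (itGIF MT U T d) C q r x t (RTK C.tb (nW (phi C.D.p) (vX C q r x)) bc) := by
  obtain ⟨bc, h1, _, H⟩ := itl_GH hU hT hC hdc hds hb
  exact ⟨bc, h1, H⟩

/-- THE TESTS OF A CELL; `I`: the item tests -/
structure CelX (T : Pool.Agent.Helper21.SW.TK Kf γ) (I : IT TP Kf (List γ) (Mu × Sf)) (C : Cel Kf)
    (g : GN) (ms : List (List Mu)) (E : SE) : Prop where
  ck : Pool.Agent.Helper12.NKT.ck C.D = true
  ce : ceK MT C = true
  le : leA MT C = true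
  gb : gbT C g = true
  it : ItsA MT I C C.D.it
  i1 : IvsA I C C.D.i1
  ic : incK C ms = true
  se : seK0 MT G3 (TT T) C E = true

/-- THE LAW OF THE ITEM TESTS OF A CELL -/
def ItL (C : Cel Kf) (g : GN) (I : IT TP Kf (List γ) (Mu × Sf)) : Prop :=
  gbT C g = true → ∀ {q r : ℕ} {x : ℝ} {t : ℕ → ℝ}, PtC lfT MT C q r x t →
    ∃ bc : ℕ → ℕ → Prop, (C.D.gb = true → ∀ n, C.D.nB < n → ∃ i < C.D.NB, bc i n) ∧
      ITL lfT KV I C q r x t (RTK C.tb (nW (phi C.D.p) (vX C q r x)) bc)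

theorem gbT_t {g : GN} (k : gbT C g = true) (e : C.D.gb = true) : gbB MT C (dT C g) = true := by
  unfold gbT at k
  rw [e] at k
  exact k

/-- the former item tests -/
theorem itT_L {T : Pool.Agent.Helper21.SW.TK Kf γ} (hT : Pool.Agent.Helper21.SW.TKL KV T)
    {g : GN} : ItL C g (itT T C g) := fun hg _ _ _ _ hC =>
  itl_G MT_ok (TT_ok hT) hC (dT_vl hC g).1 (dT_vl hC g).2 (gbT_t hg)

/-- the item tests with the fused machine -/
theorem itTF_L {U : TF Kf γ} {T : Pool.Agent.Helper21.SW.TK Kf γ} (hU : TFL KV U)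
    (hT : Pool.Agent.Helper21.SW.TKL KV T) {g : GN} : ItL C g (itTF U T C g) :=
  fun hg _ _ _ _ hC => itl_GF hU (TT_ok hT) hC (dT_vl hC g).1 (dT_vl hC g).2 (gbT_t hg)

/-- both -/
theorem itTO_L {U : TF Kf γ} {T : Pool.Agent.Helper21.SW.TK Kf γ} (hU : TFL KV U)
    (hT : Pool.Agent.Helper21.SW.TKL KV T) {g : GN} : ItL C g (itTO U T C g) := by
  intro hg q r x t hC
  obtain ⟨bc, h1, H, H'⟩ := itl_GH (d := dT C g) hU (TT_ok hT) hC (dT_vl hC g).1 (dT_vl hC g).2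
    (gbT_t hg)
  refine ⟨bc, h1, ⟨?_, fun h => H'.i h⟩⟩
  intro c P i j Sl Sr gs S S' hk hl hr
  rcases condB (show cond ((itTF U T C g).k C c P i j Sl Sr gs) true
    ((itT T C g).k C c P i j Sl Sr gs) = true from hk) with ⟨h, _⟩ | h
  · exact H'.k h hl hr
  · exact H.k h hl hr

/-- **A PIECE OF THE WINDOW FROM THE TESTS OF A CELL** -/
theorem CelX.pc {T : Pool.Agent.Helper21.SW.TK Kf γ} (hT : Pool.Agent.Helper21.SW.TKL KV T)
    {I : IT TP Kf (List γ) (Mu × Sf)} {g : GN} {ms : List (List Mu)} {E : SE}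
    (h : CelX T I C g ms E) (hI : ItL C g I)
    (h4 : r4T C.D.p C.B.A0 C.B.ra C.B.S0 C.B.rs = true) {Q : ℕ → ℕ → ℝ → Prop} {m : ℝ}
    (hQ : ∀ q r x, Q q r x → C.D.gb = true → 0 ≤ fB C.D.p q r x) :
    PcG Q C.D.p m C.B.A0 C.B.A1 C.B.ra C.B.S0 C.B.S1 C.B.rs C.S C.B.W0 C.S C.B.W1 := by
  have h7 : C.D.gb = true → 4 ≤ C.D.p := fun e => by
    have k : 7 ≤ C.D.p := Nat.le_of_ble_eq_true (Pool.Agent.Helper90.KMO.andB_t (gbT_t h.gb e)).1
    omega
  have hK : CelK MT I C := ⟨h.ck, h.ce, h.le, h.it, h.i1⟩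
  have hL : CelL lfT KV MT I C E.U (Pool.Agent.Helper82.TST.uv E.y)
      Pool.Agent.Helper51.FR.cbd := {
    gb := h7
    it := fun hC => hI h.gb hC
    ic := fun hC => incK_ok hC.hP hC.two h.ic
    se := fun hC => hC.se MT_ok (TT_ok hT) (g3V_ok MT_ok) h.se
    ind := seK0_ind h.se }
  exact hK.pc MT_ok hL h4 hQ

end

end Pool.Agent.Helper91.FU
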