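import Pool.Agent.Helper91.TM.K
import Pool.Agent.Helper91.FU.C
import Pool.Agent.Helper17.N9.N9D

/-!
Fused machine (MP_c75db0, star frame), kernel side: sums of products of rounded polynomials in three
variables (total degree `≤ 6`), with a packed majorant (fields `0, .., 6`: sums of the moduli of the
coefficients of a degree, field `7`: radius); values at the 27 nodes.
-/

set_option autoImplicit false
noncomputable section
namespace Pool.Agent.Helper91.FU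

open Pool.Agent.Helper86.C75 (Z)
open Pool.Agent.Helper86.CX (Cx andB)
open Pool.Agent.Helper86.CT (Mo)
open Pool.Agent.Helper17.N9 (NL Tr NV R9 MR2 mkNL1)
open Pool.Agent.Helper91.TM (cMA cBK TP absT ds)

/-- a rounded model: digits with offset `2 ^ 48` of the real part and of the imaginary part (the
coefficient of a monomial of degree `d` in the unit `2 ^ (-31 - 2 d)`), majorant (unit
`2 ^ (-48)`), flag -/
structure FP where
  a : Nat
  b : Nat
  d : Nat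
  k : Bool
/-- a sum of products: a number modulo `2 ^ 48160` (degree `d`: unit `2 ^ (-62 - 2 d)`), majorant
(unit `2 ^ (-96)`), flag -/
structure RW where
  N : Nat
  D : Nat
  k : Bool

/-! ### linear operations -/

def addF (x y : FP) : FP :=
  ⟨Nat.sub (Nat.add x.a y.a) fO, Nat.sub (Nat.add x.b y.b) fO, Nat.add x.d y.d, andB x.k y.k⟩
def subF (x y : FP) : FP :=
  ⟨Nat.sub (Nat.add x.a fO) y.a, Nat.sub (Nat.add x.b fO) y.b, Nat.add x.d y.d, andB x.k y.k⟩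
def zeF : FP := ⟨fO, fO, (nat_lit 0), true⟩
def oneF : FP := ⟨Nat.add fO (nat_lit 2147483648), fO, (nat_lit 281474976710656), true⟩
def negF (x : FP) : FP := subF zeF x
def cjF (x : FP) : FP := ⟨x.a, Nat.sub (Nat.add fO fO) x.b, x.d, x.k⟩

/-! ### products -/

def reF (x : FP) : Nat := Nat.add x.a fR
def imF (x : FP) : Nat := Nat.add x.b fR
def zF (x : FP) : Nat := Nat.add (Nat.add x.a (Nat.shiftLeft x.b (nat_lit 80))) fZ
def yF (x : FP) : Nat := Nat.add (Nat.shiftLeft x.a (nat_lit 80)) (Nat.sub fY x.b)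
def mulR (x y : FP) : RW :=
  ⟨Nat.add (Nat.mul (zF x) (reF y)) (Nat.mul (yF x) (imF y)), Nat.mul x.d y.d, andB x.k y.k⟩
/-- product by a real polynomial -/
def mulS (x y : FP) : RW :=
  ⟨Nat.mul (zF x) (reF y), Nat.mul x.d y.d, andB (andB x.k y.k) (Nat.beq y.b fO)⟩
def addR (u v : RW) : RW := ⟨Nat.add u.N v.N, Nat.add u.D v.D, andB u.k v.k⟩
def lifR (x : FP) : RW := ⟨Nat.shiftLeft (zF x) (nat_lit 31), Nat.shiftLeft x.d (nat_lit 48), x.k⟩
/-- half of `x` -/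
def hafR (x : FP) : RW := ⟨Nat.shiftLeft (zF x) (nat_lit 30), Nat.shiftLeft x.d (nat_lit 47), x.k⟩

/-! ### rounding -/

/-- the absolute values of the digits (or `1` less); `T`: the negative ones -/
def ab2 (x T : Nat) : Nat := Nat.land (Nat.xor x (Nat.sub (Nat.shiftLeft T (nat_lit 48)) T)) fL
def abF (x : Nat) : Nat := ab2 x (Nat.sub fS (Nat.land (Nat.shiftRight x (nat_lit 48)) fS))
/-- the sum of the digits of a degree (from the bit `j`), shifted -/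
def bkF (X j s : Nat) : Nat := Nat.shiftLeft (ds (Nat.land (Nat.shiftRight X j) cBK)) s
def dg7 (X : Nat) : Nat :=
  Nat.add (bkF X (nat_lit 0) (nat_lit 17)) (Nat.add (bkF X (nat_lit 6880) (nat_lit 175))
    (Nat.add (bkF X (nat_lit 13760) (nat_lit 333)) (Nat.add (bkF X (nat_lit 20640) (nat_lit 491))
      (Nat.add (bkF X (nat_lit 27520) (nat_lit 649)) (Nat.add (bkF X (nat_lit 34400) (nat_lit 807))
        (bkF X (nat_lit 41280) (nat_lit 965)))))))
/-- the majorant of the digits `a`, `b`; `T`: tail of the majorant of the sum of products -/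
def dgR (a b T : Nat) : Nat :=
  Nat.add (Nat.add (dg7 (Nat.add (abF a) (abF b))) dN)
    (Nat.shiftLeft (Nat.shiftRight T (nat_lit 48)) (nat_lit 1120))
/-- the majorant with the weights `4 ^ d` -/
def dw (D : Nat) : Nat :=
  Nat.mod D (nat_lit 1461501637330902918203684832716283019655932542972)
def rnd2 (k : Bool) (a b T : Nat) : FP := ⟨a, b, dgR a b T, k⟩
def rnd1 (k : Bool) (Y D : Nat) : FP :=
  rnd2 (andB k (Nat.ble (dw D) (nat_lit 1298074214633706907132624082305024)))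
    (Nat.land (Nat.shiftRight Y (nat_lit 31)) fK) (Nat.land (Nat.shiftRight Y (nat_lit 111)) fK)
    (ds (Nat.shiftRight D (nat_lit 1120)))
def rndR (u : RW) : FP := rnd1 u.k (Nat.land (Nat.add u.N fH) cMA) u.D

/-! ### from the models of `AT` -/

def bkS (X j : Nat) : Nat :=
  Nat.shiftRight (ds (Nat.land (Nat.shiftRight X j) cBK)) (nat_lit 8)
def dgT (X r : Nat) : Nat :=
  Nat.add
    (Nat.add (bkS X (nat_lit 0)) (Nat.add (Nat.shiftLeft (bkS X (nat_lit 6880)) (nat_lit 160))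
      (Nat.add (Nat.shiftLeft (bkS X (nat_lit 13760)) (nat_lit 320))
        (Nat.add (Nat.shiftLeft (bkS X (nat_lit 20640)) (nat_lit 480))
          (Nat.add (Nat.shiftLeft (bkS X (nat_lit 27520)) (nat_lit 640))
            (Nat.add (Nat.shiftLeft (bkS X (nat_lit 34400)) (nat_lit 800))
              (Nat.shiftLeft (bkS X (nat_lit 41280)) (nat_lit 960))))))))
    (Nat.add dK (Nat.shiftLeft r (nat_lit 1120)))
/-- the digits of degree `d` divided by `2 ^ (25 - 2 d)` -/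
def lo7 (Y : Nat) : Nat :=
  Nat.add (Nat.add (Nat.shiftRight (Nat.land Y tM0) (nat_lit 25))
      (Nat.shiftRight (Nat.land Y tM1) (nat_lit 23)))
    (Nat.add (Nat.add (Nat.shiftRight (Nat.land Y tM2) (nat_lit 21))
        (Nat.shiftRight (Nat.land Y tM3) (nat_lit 19)))
      (Nat.add (Nat.shiftRight (Nat.land Y tM4) (nat_lit 17))
        (Nat.add (Nat.shiftRight (Nat.land Y tM5) (nat_lit 15))
          (Nat.shiftRight (Nat.land Y tM6) (nat_lit 13)))))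
def loT (N : Nat) : Nat := lo7 (Nat.add N fA)
def toF1 (x : TP) (r d : Nat) : FP :=
  ⟨loT x.re, loT x.im, d, andB x.g (andB (Nat.ble r (nat_lit 4611686018427387904))
    (Nat.ble (dw d) (nat_lit 4611686018427387904)))⟩
def toF2 (x : TP) (r : Nat) : FP := toF1 x r (dgT (Nat.add (absT x.re) (absT x.im)) r)
def toF (x : Mo TP) : FP := toF2 x.v x.r

/-! ### the values at the nodes -/

/-- values at the nodes `-1`, `0`, `1` of `s_0` -/
structure U3 where
  a : Nat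
  c : Nat
  b : Nat
def gt (Y s m : Nat) : Nat := Nat.land (Nat.shiftRight Y s) m
def ev4 (a b c d : Nat) : Nat := Nat.add (Nat.add a b) (Nat.add c d)
/-- `a + 3/4 b` -/
def od3 (a b : Nat) : Nat := Nat.sub (Nat.add a b) (Nat.shiftRight b (nat_lit 2))
/-- one variable: `k` offsets, `e`, `f` positions of the second and of the third value -/
def nx1 (k e f E O c : Nat) : Nat :=
  Nat.add (Nat.sub (Nat.add E k) O) (Nat.add (Nat.shiftLeft c e) (Nat.shiftLeft (Nat.add E O) f))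
def lv2a (c x2 x4 x6 O : Nat) : Nat :=
  nx1 k2 (nat_lit 1120) (nat_lit 2240) (ev4 c x2 x4 x6) O c
def lv2 (Y : Nat) : Nat :=
  lv2a (Nat.land Y m2) (gt Y (nat_lit 16000) m2) (gt Y (nat_lit 32000) m2)
    (gt Y (nat_lit 48000) m2)
    (od3 (gt Y (nat_lit 8000) m2) (Nat.add (gt Y (nat_lit 24000) n2) (gt Y (nat_lit 40000) n2)))
def lv1a (c x2 x4 x6 O : Nat) : Nat :=
  nx1 k1 (nat_lit 320) (nat_lit 640) (ev4 c x2 x4 x6) O c
def lv1 (Y : Nat) : Nat :=
  lv1a (Nat.land Y m1) (gt Y (nat_lit 14080) m1) (gt Y (nat_lit 28160) m1)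
    (gt Y (nat_lit 42240) m1)
    (od3 (gt Y (nat_lit 7040) m1) (Nat.add (gt Y (nat_lit 21120) n1) (gt Y (nat_lit 35200) n1)))
def lv0a (E O c : Nat) : U3 := ⟨Nat.sub (Nat.add E k0) O, c, Nat.add E O⟩
def lv0b (c x2 x4 x6 O : Nat) : U3 := lv0a (ev4 c x2 x4 x6) O c
def lv0 (Y : Nat) : U3 :=
  lv0b (Nat.land Y m0) (gt Y (nat_lit 13760) m0) (gt Y (nat_lit 27520) m0)
    (gt Y (nat_lit 41280) m0)
    (od3 (gt Y (nat_lit 6880) m0) (Nat.add (gt Y (nat_lit 20640) n0) (gt Y (nat_lit 34400) n0)))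
/-- the digits of degree `d` divided by `4 ^ d` -/
def usc (Y : Nat) : Nat :=
  Nat.add (Nat.add (Nat.land Y uM0) (Nat.shiftRight (Nat.land Y uM1) (nat_lit 2)))
    (Nat.add (Nat.add (Nat.shiftRight (Nat.land Y uM2) (nat_lit 4))
        (Nat.shiftRight (Nat.land Y uM3) (nat_lit 6)))
      (Nat.add (Nat.shiftRight (Nat.land Y uM4) (nat_lit 8))
        (Nat.add (Nat.shiftRight (Nat.land Y uM5) (nat_lit 10))
          (Nat.shiftRight (Nat.land Y uM6) (nat_lit 12)))))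
def ndY (Y : Nat) : U3 := lv0 (lv1 (lv2 (usc Y)))

/-- scale `2 ^ (-(34 + k))`, offset `2 ^ 40`, imaginary parts `128` bits higher -/
def tr1 (k s L I : Nat) : Nat :=
  Nat.sub (Nat.add (Nat.shiftRight (Nat.add L (Nat.shiftLeft I (nat_lit 128)))
    (Nat.add (nat_lit 34) k)) p4) (Nat.shiftRight s k)
def trU (k s X : Nat) : Nat := tr1 k s (Nat.land X mL) (gt X (nat_lit 80) mL)
def tr3 (k : Nat) (u : U3) : U3 := ⟨trU k sa u.a, trU k sc u.c, trU k sb u.b⟩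

/-- the absolute values of the digits (or `1` less), offset `2 ^ 73`; `T`: the negative ones -/
def ab1 (Y T : Nat) : Nat := Nat.xor Y (Nat.sub (Nat.shiftLeft T (nat_lit 73)) T)
def abY (Y : Nat) : Nat := ab1 Y (Nat.sub nS (Nat.land (Nat.shiftRight Y (nat_lit 73)) nS))
/-- the lower half and the upper half of a digit -/
def hlo (x : Nat) : Nat := Nat.land x (nat_lit 1208925819614629174706175)
def hhi (x : Nat) : Nat := Nat.shiftRight x (nat_lit 80)
/-- weights: `2 ^ 13` times the error of the economization of a monomial -/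
def wc4 (x y z w : Nat) : Nat :=
  Nat.add (Nat.add (Nat.shiftLeft x (nat_lit 5)) (Nat.shiftLeft y (nat_lit 3)))
    (Nat.add (Nat.shiftLeft z (nat_lit 2)) w)
/-- bound of the modulus from bounds of the real part and the imaginary part -/
def mo2 (a b : Nat) : Nat := Nat.add a (Nat.sub b a)
def mo1 (a b : Nat) : Nat :=
  mo2 (Nat.add a (Nat.shiftRight b (nat_lit 1))) (Nat.add b (Nat.shiftRight a (nat_lit 1)))
def cb4 (x y z w : Nat) : Nat :=
  mo1 (wc4 (hlo x) (hlo y) (hlo z) (hlo w)) (wc4 (hhi x) (hhi y) (hhi z) (hhi w))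
/-- `2 ^ 75` times the error of the economization -/
def cbA (A : Nat) : Nat :=
  cb4 (ds (Nat.land A nC3)) (ds (Nat.land A nC4)) (ds (Nat.land A nC5)) (ds (Nat.land A nC6))
/-- the radius, unit `2 ^ (k - 28)`; `c`: cubic part, `T`: tail of the majorant -/
def ra1 (k c T : Nat) : Nat :=
  Nat.add (Nat.add (Nat.shiftRight c (Nat.add (nat_lit 47) k))
    (Nat.shiftRight T (Nat.add (nat_lit 68) k))) (nat_lit 5)
def raY (k Y D : Nat) : Nat := ra1 k (cbA (abY Y)) (ds (Nat.shiftRight D (nat_lit 1120)))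
def yR (u : RW) : Nat := Nat.land (Nat.add u.N nO) cMA

/-- an entry: the values at the nodes, the radius, the flag -/
structure E1 where
  u : U3
  r : Nat
  k : Bool
def en1 (k Y D : Nat) (b : Bool) : E1 :=
  ⟨tr3 k (ndY Y), raY k Y D, andB b (Nat.ble (dw D) (nat_lit 162259276828032771770860598984704))⟩
def enR (k : Nat) (u : RW) : E1 := en1 k (yR u) u.D u.k

/-- nine numbers -/
structure U9 where
  a : Nat
  b : Nat
  c : Nat
  d : Nat
  e : Nat
  f : Nat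
  g : Nat
  h : Nat
  i : Nat
/-- a leaf -/
def lfU (u : U9) (p : Nat) : NL :=
  mkNL1 (gt u.a p MR2) (gt u.b p MR2) (gt u.c p MR2) (gt u.d p MR2) (gt u.e p MR2) (gt u.f p MR2)
    (gt u.g p MR2) (gt u.h p MR2) (gt u.i p MR2)
/-- nine entries -/
structure E9 where
  a : E1
  b : E1
  c : E1
  d : E1
  e : E1
  f : E1
  g : E1
  h : E1
  i : E1
def lf3 (A C B : U9) (p : Nat) : Tr NL := ⟨lfU A p, lfU C p, lfU B p⟩
def tre (A C B : U9) : Tr (Tr (Tr NL)) :=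
  ⟨⟨lf3 A C B (nat_lit 0), lf3 A C B (nat_lit 320), lf3 A C B (nat_lit 640)⟩,
   ⟨lf3 A C B (nat_lit 1120), lf3 A C B (nat_lit 1440), lf3 A C B (nat_lit 1760)⟩,
   ⟨lf3 A C B (nat_lit 2240), lf3 A C B (nat_lit 2560), lf3 A C B (nat_lit 2880)⟩⟩
def trE (E : E9) : Tr (Tr (Tr NL)) :=
  tre ⟨E.a.u.a, E.b.u.a, E.c.u.a, E.d.u.a, E.e.u.a, E.f.u.a, E.g.u.a, E.h.u.a, E.i.u.a⟩
    ⟨E.a.u.c, E.b.u.c, E.c.u.c, E.d.u.c, E.e.u.c, E.f.u.c, E.g.u.c, E.h.u.c, E.i.u.c⟩
    ⟨E.a.u.b, E.b.u.b, E.c.u.b, E.d.u.b, E.e.u.b, E.f.u.b, E.g.u.b, E.h.u.b, E.i.u.b⟩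
def okE9 (E : E9) : Bool :=
  andB E.a.k (andB E.b.k (andB E.c.k (andB E.d.k (andB E.e.k (andB E.f.k (andB E.g.k
    (andB E.h.k E.i.k)))))))
def nvE (E : E9) : NV (Tr (Tr (Tr NL))) :=
  ⟨trE E, ⟨E.a.r, E.b.r, E.c.r, E.d.r, E.e.r, E.f.r, E.g.r, E.h.r, E.i.r⟩, okE9 E⟩

/-- a matrix of sums of products -/
structure W9 where
  a : RW
  b : RW
  c : RW
  d : RW
  e : RW
  f : RW
  g : RW
  h : RW
  i : RW
def e9W (k : Nat) (X : W9) : E9 :=
  ⟨enR k X.a, enR k X.b, enR k X.c, enR k X.d, enR k X.e, enR k X.f, enR k X.g, enR k X.h,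
    enR k X.i⟩
/-- A MATRIX AT THE NODES -/
def nv3 (X : W9) (k : Nat) : NV (Tr (Tr (Tr NL))) := nvE (e9W k X)

/-! three values of the parameter of a family (`0`, `1/2`, `1`) -/

def ab4 (Y T : Nat) : Nat := Nat.xor Y (Nat.sub (Nat.shiftLeft T (nat_lit 76)) T)
def abZ (Y : Nat) : Nat := ab4 Y (Nat.sub nS (Nat.land (Nat.shiftRight Y (nat_lit 76)) nS))
def cbB (A : Nat) : Nat :=
  cb4 (ds (Nat.land A nD3)) (ds (Nat.land A nD4)) (ds (Nat.land A nD5)) (ds (Nat.land A nD6))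
/-- the cubic part of the middle control `2 y - (x + z) / 2` -/
def cbM (x y z : Nat) : Nat :=
  Nat.shiftRight (cbB (abZ (Nat.sub (Nat.add (Nat.shiftLeft y (nat_lit 2)) nK) (Nat.add x z))))
    (nat_lit 1)
def mx3 (x y z : Nat) : Nat := mo2 x (mo2 y z)
/-- the radius; `c`: cubic part, `T`: tail of the majorant -/
def rb1 (k c T : Nat) : Nat :=
  Nat.add (Nat.add (Nat.shiftRight c (Nat.add (nat_lit 47) k))
    (Nat.shiftRight (Nat.mul (nat_lit 5) T) (Nat.add (nat_lit 70) k))) (nat_lit 8)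
def tlR (u : RW) : Nat := ds (Nat.shiftRight u.D (nat_lit 1120))
def rb4 (k : Nat) (x y z : RW) : Nat :=
  rb1 k (mx3 (cbA (abY (yR x))) (cbM (yR x) (yR y) (yR z)) (cbA (abY (yR z))))
    (mx3 (tlR x) (tlR y) (tlR z))
def r9b (k : Nat) (x y z : W9) : R9 :=
  ⟨rb4 k x.a y.a z.a, rb4 k x.b y.b z.b, rb4 k x.c y.c z.c, rb4 k x.d y.d z.d, rb4 k x.e y.e z.e,
    rb4 k x.f y.f z.f, rb4 k x.g y.g z.g, rb4 k x.h y.h z.h, rb4 k x.i y.i z.i⟩
def nv4a (x y z : NV (Tr (Tr (Tr NL)))) (R : R9) : NV (Tr (Tr (Tr (Tr NL)))) :=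
  ⟨⟨x.v, y.v, z.v⟩, R, andB x.ok (andB y.ok z.ok)⟩
/-- THE SAME FOR THREE VALUES OF THE PARAMETER OF A FAMILY -/
def nv4 (X Y Z : W9) (k : Nat) : NV (Tr (Tr (Tr (Tr NL)))) :=
  nv4a (nv3 X k) (nv3 Y k) (nv3 Z k) (r9b k X Y Z)

/-! ### vectors and matrices -/

structure F3 where
  a : FP
  b : FP
  c : FP
structure F9 where
  a : FP
  b : FP
  c : FP
  d : FP
  e : FP
  f : FP
  g : FP
  h : FP
  i : FP
/-- `x^* J` -/
def jF (x : F3) : F3 := ⟨cjF x.a, cjF x.b, negF (cjF x.c)⟩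
def add3 (x y : F3) : F3 := ⟨addF x.a y.a, addF x.b y.b, addF x.c y.c⟩
def sub3 (x y : F3) : F3 := ⟨subF x.a y.a, subF x.b y.b, subF x.c y.c⟩
def sub9 (x y : F9) : F9 :=
  ⟨subF x.a y.a, subF x.b y.b, subF x.c y.c, subF x.d y.d, subF x.e y.e, subF x.f y.f,
    subF x.g y.g, subF x.h y.h, subF x.i y.i⟩
def dt3 (x y z x' y' z' : FP) : RW := addR (addR (mulR x x') (mulR y y')) (mulR z z')
/-- `R s` -/
def mvF (R : F9) (s : F3) : F3 :=
  ⟨rndR (dt3 R.a R.b R.c s.a s.b s.c), rndR (dt3 R.d R.e R.f s.a s.b s.c),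
    rndR (dt3 R.g R.h R.i s.a s.b s.c)⟩
/-- `z L` -/
def vmF (z : F3) (L : F9) : F3 :=
  ⟨rndR (dt3 z.a z.b z.c L.a L.d L.g), rndR (dt3 z.a z.b z.c L.b L.e L.h),
    rndR (dt3 z.a z.b z.c L.c L.f L.i)⟩
/-- `y z + s p` -/
def en2 (y z s p : FP) : RW := addR (mulR y z) (mulR s p)
def o2W (y z s p : F3) (u : RW) : W9 :=
  ⟨addR (en2 y.a z.a s.a p.a) u, en2 y.a z.b s.a p.b, en2 y.a z.c s.a p.c,
    en2 y.b z.a s.b p.a, addR (en2 y.b z.b s.b p.b) u, en2 y.b z.c s.b p.c,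
    en2 y.c z.a s.c p.a, en2 y.c z.b s.c p.b, addR (en2 y.c z.c s.c p.c) u⟩
def o1W (s z : F3) (u : RW) : W9 :=
  ⟨addR (mulR s.a z.a) u, mulR s.a z.b, mulR s.a z.c,
    mulR s.b z.a, addR (mulR s.b z.b) u, mulR s.b z.c,
    mulR s.c z.a, mulR s.c z.b, addR (mulR s.c z.c) u⟩
/-- `X + t K` -/
def adK (X : W9) (K : F9) (t : FP) : W9 :=
  ⟨addR X.a (mulS K.a t), addR X.b (mulS K.b t), addR X.c (mulS K.c t), addR X.d (mulS K.d t),
    addR X.e (mulS K.e t), addR X.f (mulS K.f t), addR X.g (mulS K.g t), addR X.h (mulS K.h t),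
    addR X.i (mulS K.i t)⟩

/-- data of a run -/
structure QF where
  s : F3
  x : F3
  t : FP
  u : FP
/-- `M^ = s s^* J - t` -/
def QM (Q : QF) : W9 := o1W Q.s (jF Q.s) (lifR (negF Q.t))
/-- `D^ = x s^* J + s x^* J + u` -/
def QD (Q : QF) : W9 := o2W Q.x (jF Q.s) Q.s (jF Q.x) (lifR Q.u)
/-- `X^ = D^ + M^ L - R M^ = (x - R s) s^* J + s (x^* J + s^* J L) + t (R - L) + u` -/
def QX (L R : F9) (Q : QF) : W9 :=
  adK (o2W (sub3 Q.x (mvF R Q.s)) (jF Q.s) Q.s (add3 (jF Q.x) (vmF (jF Q.s) L)) (lifR Q.u))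
    (sub9 R L) Q.t

/-- a matrix -/
def lifW (M : F9) : W9 :=
  ⟨lifR M.a, lifR M.b, lifR M.c, lifR M.d, lifR M.e, lifR M.f, lifR M.g, lifR M.h, lifR M.i⟩
/-- row times column plus row times column -/
def dt6 (x y z x' y' z' u v w u' v' w' : FP) : RW := addR (dt3 x y z x' y' z') (dt3 u v w u' v' w')
/-- `M L + N M` -/
def comW (M L N : F9) : W9 :=
  ⟨dt6 M.a M.b M.c L.a L.d L.g N.a N.b N.c M.a M.d M.g,
    dt6 M.a M.b M.c L.b L.e L.h N.a N.b N.c M.b M.e M.h,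
    dt6 M.a M.b M.c L.c L.f L.i N.a N.b N.c M.c M.f M.i,
    dt6 M.d M.e M.f L.a L.d L.g N.d N.e N.f M.a M.d M.g,
    dt6 M.d M.e M.f L.b L.e L.h N.d N.e N.f M.b M.e M.h,
    dt6 M.d M.e M.f L.c L.f L.i N.d N.e N.f M.c M.f M.i,
    dt6 M.g M.h M.i L.a L.d L.g N.g N.h N.i M.a M.d M.g,
    dt6 M.g M.h M.i L.b L.e L.h N.g N.h N.i M.b M.e M.h,
    dt6 M.g M.h M.i L.c L.f L.i N.g N.h N.i M.c M.f M.i⟩
def neg9 (x : F9) : F9 :=
  ⟨negF x.a, negF x.b, negF x.c, negF x.d, negF x.e, negF x.f, negF x.g, negF x.h, negF x.i⟩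

/-! ### the runs -/

/-- the box: `v`, `vd`, `<vd, v>` -/
structure HF where
  v : F3
  vd : F3
  z : FP
/-- a letter: `w`, `wd`, `s`, `sd`, minus the product `sd_0 conj s_0` -/
structure LF where
  w : FP
  wd : FP
  s : F3
  sd : F3
  n : FP

/-- `s + e v` -/
def svF (s e v : FP) : FP := rndR (addR (lifR s) (mulS v e))
def sQ (L : LF) (F : HF) (e : FP) : F3 :=
  ⟨svF L.s.a e F.v.a, svF L.s.b e F.v.b, svF L.s.c e F.v.c⟩
/-- `sd + r' vd + h v`, `r' = -r` -/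
def xpR (sd r' vd h v : FP) : RW := addR (addR (lifR sd) (mulS vd r')) (mulR h v)
def xP (L : LF) (F : HF) (r' h : FP) : F3 :=
  ⟨rndR (xpR L.sd.a r' F.vd.a h F.v.a), rndR (xpR L.sd.b r' F.vd.b h F.v.b),
    rndR (xpR L.sd.c r' F.vd.c h F.v.c)⟩
/-- the same plus `g s` -/
def xgR (sd r' vd h v g s : FP) : RW := addR (xpR sd r' vd h v) (mulS s g)
def xE (L : LF) (F : HF) (r' h g : FP) (s : F3) : F3 :=
  ⟨rndR (xgR L.sd.a r' F.vd.a h F.v.a g s.a), rndR (xgR L.sd.b r' F.vd.b h F.v.b g s.b),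
    rndR (xgR L.sd.c r' F.vd.c h F.v.c g s.c)⟩
/-- `w + r e` -/
def tQ (L : LF) (r e : FP) : FP := rndR (addR (lifR L.w) (mulS r e))
/-- `z r + n` -/
def hQ (F : HF) (r n : FP) : FP := rndR (addR (mulS F.z r) (lifR n))

/-- `a1 = a2 = 0` -/
def qP1 (F : HF) (L : LF) (r e : FP) : QF :=
  ⟨sQ L F e, xP L F (negF r) (hQ F r L.n), tQ L r e, rndR (mulS L.wd (subF r oneF))⟩
def qP (F : HF) (L : LF) (r : FP) : QF := qP1 F L r (subF r L.w)
/-- `a2 = 0`; `g = wd a1 / 2` -/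
def qV2 (F : HF) (L : LF) (r g t : FP) (s : F3) : QF :=
  ⟨s, xE L F (negF r) (hQ F r L.n) g s, t,
    rndR (addR (mulS L.wd (subF r oneF)) (mulS t (negF (addF g g))))⟩
def qV1 (F : HF) (L : LF) (r e g : FP) : QF := qV2 F L r g (tQ L r e) (sQ L F e)
/-- `ah = a1 / 2` -/
def qV (F : HF) (L : LF) (ah r : FP) : QF := qV1 F L r (subF r L.w) (rndR (mulS L.wd ah))
/-- the general case; `g = wd a1 / 2`, `g' = wd a2` -/
def qE2 (F : HF) (L : LF) (r e g g' t : FP) (s : F3) : QF :=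
  ⟨s, xE L F (negF r) (hQ F r (subF L.n g')) g s, t,
    rndR (addR (addR (mulS L.wd (subF r oneF)) (mulS t (negF (addF g g)))) (mulS (addF r e) g'))⟩
def qE1 (F : HF) (L : LF) (r e g g' : FP) : QF := qE2 F L r e g g' (tQ L r e) (sQ L F e)
def qE (F : HF) (L : LF) (ah a2 r : FP) : QF :=
  qE1 F L r (subF r L.w) (rndR (mulS L.wd ah)) (rndR (mulS L.wd a2))
/-- recession direction; `c = -rr`; `x = s / 2 - rr v`, `u = rr (2 r - w) - t` -/
def xc1 (s v c : FP) : FP := rndR (addR (hafR s) (mulS v c))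
def qC2 (F : HF) (r e rr c t : FP) (s : F3) : QF :=
  ⟨s, ⟨xc1 s.a F.v.a c, xc1 s.b F.v.b c, xc1 s.c F.v.c c⟩, t,
    rndR (addR (mulS (addF r e) rr) (lifR (negF t)))⟩
def qC1 (F : HF) (L : LF) (rr r e : FP) : QF := qC2 F r e rr (negF rr) (tQ L r e) (sQ L F e)
def qC (F : HF) (L : LF) (rr r : FP) : QF := qC1 F L rr r (subF r L.w)

end Pool.Agent.Helper91.FU
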