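import Pool.Agent.Helper91.FU.S

/-!
Fused machine (MP_c75db0, star frame), row C: the sums of the fields of the majorant, the value at the
point `s / 4`.
-/

set_option autoImplicit false
set_option exponentiation.threshold 100000
noncomputable section
namespace Pool.Agent.Helper91.FU

open Finset
open Pool.Agent.Helper91
open Pool.Agent.Helper90.KMT (PT)
open Pool.Agent.Helper91.TM (TP Sm Sz Sp Ev Nh zc tS vb xd ds SB Sm_eq Sm_lt Sm_div Sm_ds)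

/-! the two sums of the fields of the majorant -/

theorem dw_mod (m : ℕ) (n : ℕ → ℕ) : Sm m n % (2 ^ 160 - 4) = Wt m n % (2 ^ 160 - 4) := by
  have h : ∀ k : ℕ, 2 ^ (160 * k) ≡ 4 ^ k [MOD 2 ^ 160 - 4] := by
    intro k
    rw [pow_mul]
    have h1 : 2 ^ 160 ≡ 4 [MOD 2 ^ 160 - 4] := by
      refine (Nat.modEq_iff_dvd' (by norm_num)).2 ?_ |>.symm
      exact dvd_refl _
    exact h1.pow k
  rw [Sm_eq]
  unfold Wt
  refine Nat.ModEq.sum fun i _ => ?_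
  rw [mul_comm (4 ^ i) (n i)]
  exact (Nat.ModEq.refl (n i)).mul (h i)

theorem dw_of {m : ℕ} {n : ℕ → ℕ} (h : Wt m n ≤ 16 * 2 ^ 128) : dw (Sm m n) = Wt m n := by
  have e : dw (Sm m n) = Sm m n % (2 ^ 160 - 4) := rfl
  rw [e, dw_mod, Nat.mod_eq_of_lt]
  refine lt_of_le_of_lt h ?_
  norm_num

theorem dw_eq {n : ℕ → ℕ} (h : Wt 15 n ≤ 16 * 2 ^ 128) : dw (Sm 15 n) = Wt 15 n := dw_of h
theorem dw_eq8 {n : ℕ → ℕ} (h : Wt 8 n ≤ 16 * 2 ^ 128) : dw (Sm 8 n) = Wt 8 n := dw_of h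

theorem Wt_le {m : ℕ} {n : ℕ → ℕ} {b : ℕ} (h : Wt m n ≤ b) {i : ℕ} (hi : i < m) : n i ≤ b := by
  have h1 : 4 ^ i * n i ≤ Wt m n :=
    Finset.single_le_sum (f := fun k => 4 ^ k * n k) (fun _ _ => Nat.zero_le _) (mem_range.2 hi)
  have h2 : n i ≤ 4 ^ i * n i := Nat.le_mul_of_pos_left _ (by positivity)
  exact h2.trans (h1.trans h)

/-- the tail -/
theorem tl_eq {n : ℕ → ℕ} (h : Wt 15 n ≤ 16 * 2 ^ 128) :
    ds (Nat.shiftRight (Sm 15 n) (nat_lit 1120)) = Tl n := by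
  have hn : ∀ i < 7 + 8, n i < 2 ^ 160 := fun i hi =>
    lt_of_le_of_lt (Wt_le h hi) (by norm_num)
  have e1 : Nat.shiftRight (Sm 15 n) (nat_lit 1120) = Sm (7 + 8) n / 2 ^ (160 * 7) :=
    Nat.shiftRight_eq_div_pow _ _
  have e2 : ∀ x, ds x = x % (2 ^ 160 - 1) := fun _ => rfl
  rw [e1, Sm_div hn, e2, Sm_ds]
  · rfl
  · have h1 : ∑ i ∈ range 8, n (7 + i) ≤ ∑ i ∈ range 8, 16 * 2 ^ 128 :=
      Finset.sum_le_sum fun i hi => Wt_le h (by rw [mem_range] at hi; omega)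
    refine lt_of_le_of_lt h1 ?_
    rw [Finset.sum_const, card_range]
    norm_num

theorem SB_s {t : ℕ → ℝ} (hP : PT 3 t) (j : ℕ) (hj : j < 3) : |sS t j| ≤ 1 / 4 := by
  have h0 := hP.h0 j hj
  have h1 := hP.h1 j hj
  unfold sS
  rw [abs_le]
  constructor <;> linarith

theorem x_sum {i : ℕ} (h : vb i = true) : TM.x0 i + TM.x1 i + TM.x2 i = xd i := by
  have h1 := ((TM.vb_iff i).1 h).2
  unfold TM.x0 TM.x1 TM.x2 xd
  omega

theorem x_ge (i : ℕ) : xd i ≤ TM.x0 i + TM.x1 i + TM.x2 i := by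
  unfold TM.x0
  omega

theorem mu_s {t : ℕ → ℝ} (hP : PT 3 t) (i : ℕ) : |TM.mu (sS t) i| ≤ 1 / 4 ^ xd i := by
  have h : ∀ j < 3, ∀ e : ℕ, |sS t j ^ e| ≤ (1 / 4) ^ e := fun j hj e => by
    rw [abs_pow]
    exact pow_le_pow_left₀ (abs_nonneg _) (SB_s hP j hj) e
  unfold TM.mu
  rw [abs_mul, abs_mul]
  have h0 := h 0 (by norm_num) (TM.x0 i)
  have h1 := h 1 (by norm_num) (TM.x1 i)
  have h2 := h 2 (by norm_num) (TM.x2 i)
  have e : (1 / 4 : ℝ) ^ TM.x0 i * (1 / 4) ^ TM.x1 i * (1 / 4) ^ TM.x2 i =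
      (1 / 4) ^ (TM.x0 i + TM.x1 i + TM.x2 i) := by rw [pow_add, pow_add]
  have h3 : |sS t 0 ^ TM.x0 i| * |sS t 1 ^ TM.x1 i| * |sS t 2 ^ TM.x2 i| ≤
      (1 / 4 : ℝ) ^ TM.x0 i * (1 / 4) ^ TM.x1 i * (1 / 4) ^ TM.x2 i :=
    mul_le_mul (mul_le_mul h0 h1 (abs_nonneg _) (by positivity)) h2 (abs_nonneg _) (by positivity)
  refine h3.trans ?_
  rw [e]
  have h4 : (1 / 4 : ℝ) ^ (TM.x0 i + TM.x1 i + TM.x2 i) ≤ (1 / 4) ^ xd i :=
    pow_le_pow_of_le_one (by norm_num) (by norm_num) (x_ge i)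
  refine h4.trans (le_of_eq ?_)
  rw [one_div_pow]

/-- the value is bounded by the norms of the homogeneous parts -/
theorem Ev_le {t : ℕ → ℝ} (hP : PT 3 t) (z : ℕ → ℂ) :
    ‖Ev (sS t) z‖ ≤ ∑ d ∈ range 7, Nh z d / 4 ^ d := by
  unfold Ev
  refine (norm_sum_le _ _).trans ?_
  have h1 : ∀ i ∈ range 301, ‖z i * (TM.mu (sS t) i : ℂ)‖ ≤ ‖z i‖ * (fun d : ℕ => 1 / 4 ^ d) (xd i) := by
    intro i _
    rw [norm_mul, Complex.norm_real, Real.norm_eq_abs]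
    exact mul_le_mul_of_nonneg_left (mu_s hP i) (norm_nonneg _)
  refine (Finset.sum_le_sum h1).trans (le_of_eq ?_)
  rw [TM.sum_blk2 z (fun d => 1 / 4 ^ d)]
  simp only [Finset.sum_range_succ, Finset.sum_range_zero]
  ring

/-- the same value at the point `2 t - 1` -/
theorem Ev_sS (t : ℕ → ℝ) {z : ℕ → ℂ} (hz : Sp z) :
    Ev (sS t) z = Ev (tS t) (fun i => z i / 4 ^ xd i) := by
  unfold Ev
  refine Finset.sum_congr rfl fun i _ => ?_
  cases hv : vb i with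
  | false =>
    show _ = z i / 4 ^ xd i * _
    rw [hz i hv]
    simp
  | true =>
    have e : TM.mu (sS t) i = TM.mu (tS t) i / 4 ^ xd i := by
      have h4 : ∀ j, sS t j = tS t j / 4 := fun j => rfl
      unfold TM.mu
      rw [h4, h4, h4, div_pow, div_pow, div_pow, ← x_sum hv, pow_add, pow_add]
      field_simp
    rw [e]
    push_cast
    ring

end Pool.Agent.Helper91.FU
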