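import Pool.Agent.Helper91.FU.RA
import Pool.Agent.Helper57.FU.RowM
import Pool.Agent.Helper60.FU.RowR
import Pool.Agent.Helper55.FU.T
import Pool.Agent.Helper26.TM.XH
import Pool.Agent.Helper53.TM.Let

/-!
Fused machine (MP_c75db0, star frame), row X: vectors, matrices, the data of the runs, the matrices of an
item.
-/

set_option autoImplicit false
noncomputable section
namespace Pool.Agent.Helper91.FU

open Matrix
open Pool.Agent.Helper91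
open Pool.Agent.Helper90.KMT (PT)
open Pool.Agent.Helper90.KMO (UU UU_pos andB_t)
open Pool.Agent.Helper86.CT (Mo)
open Pool.Agent.Helper17.K9 (V9)
open Pool.Agent.Helper62.TVM (V3m)
open Pool.Agent.Helper26.XM (oJ oJ_mul mul_oJ tR uR)
open Pool.Agent.Helper26.XH (FH sH xH xC uC)
open Pool.Agent.Helper51.FR (LM)
open Pool.Agent.Helper91.TM (TP lfT)
open Pool.Agent.Helper91.TMK (TOK TW TV)
open Pool.Agent.Helper91.TMK.XH (HOK)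
open Pool.Agent.Helper91.TMK.FR (LOK)
open Pool.Agent.Helper6.MONO.W2 (Mt Sy brJ nW nWd ns nsd nc phi)

/-! ### vectors and matrices -/

/-- a vector -/
structure FW (n : ℕ) (t : ℕ → ℝ) (v : Fin 3 → ℂ) (x : F3) : Prop where
  a : FV n t (v 0) x.a
  b : FV n t (v 1) x.b
  c : FV n t (v 2) x.c
/-- a matrix -/
structure FM (n : ℕ) (t : ℕ → ℝ) (M : Mt) (X : F9) : Prop where
  a : FV n t (M 0 0) X.a
  b : FV n t (M 0 1) X.b
  c : FV n t (M 0 2) X.c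
  d : FV n t (M 1 0) X.d
  e : FV n t (M 1 1) X.e
  f : FV n t (M 1 2) X.f
  g : FV n t (M 2 0) X.g
  h : FV n t (M 2 1) X.h
  i : FV n t (M 2 2) X.i

/-- `y^* J` -/
def jv (y : Fin 3 → ℂ) : Fin 3 → ℂ := ![star (y 0), star (y 1), -star (y 2)]

variable {c c' : ℕ} {t : ℕ → ℝ} {u v w z : Fin 3 → ℂ} {x y : F3} {M N L R : Mt} {X Y : F9}
  {W V : W9} {f g : ℂ} {r : RW}

theorem FW.congr (h : FW c t v x) (e : v = w) : FW c t w x := e ▸ h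
theorem FM.congr (h : FM c t M X) (e : M = N) : FM c t N X := e ▸ h
theorem RM_congr (h : RM c t M W) (e : M = N) : RM c t N W := e ▸ h
theorem RM_mono (h : RM c t M W) (hc : c ≤ c') : RM c' t M W := by
  obtain ⟨h1, h2, h3, h4, h5, h6, h7, h8, h9⟩ := h
  exact ⟨h1.mono hc, h2.mono hc, h3.mono hc, h4.mono hc, h5.mono hc, h6.mono hc, h7.mono hc,
    h8.mono hc, h9.mono hc⟩

theorem FW.j (h : FW c t v x) (hc : c ≤ 4) : FW c t (jv v) (jF x) :=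
  ⟨h.a.cj hc, h.b.cj hc, (h.c.cj hc).neg hc⟩
theorem FW.add (h : FW c t v x) (h' : FW c' t w y) (hc : c + c' ≤ 4) :
    FW (c + c') t (v + w) (add3 x y) := ⟨h.a.add h'.a hc, h.b.add h'.b hc, h.c.add h'.c hc⟩
theorem FW.sub (h : FW c t v x) (h' : FW c' t w y) (hc : c + c' ≤ 4) :
    FW (c + c') t (v - w) (sub3 x y) := ⟨h.a.sub h'.a hc, h.b.sub h'.b hc, h.c.sub h'.c hc⟩
theorem FM.sub (h : FM c t M X) (h' : FM c' t N Y) (hc : c + c' ≤ 4) :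
    FM (c + c') t (M - N) (sub9 X Y) :=
  ⟨h.a.sub h'.a hc, h.b.sub h'.b hc, h.c.sub h'.c hc, h.d.sub h'.d hc, h.e.sub h'.e hc,
    h.f.sub h'.f hc, h.g.sub h'.g hc, h.h.sub h'.h hc, h.i.sub h'.i hc⟩
theorem FM.neg (h : FM c t M X) (hc : c ≤ 4) : FM c t (-M) (neg9 X) :=
  ⟨h.a.neg hc, h.b.neg hc, h.c.neg hc, h.d.neg hc, h.e.neg hc, h.f.neg hc, h.g.neg hc, h.h.neg hc,
    h.i.neg hc⟩

section
variable {f1 f2 f3 g1 g2 g3 : ℂ} {x1 x2 x3 y1 y2 y3 : FP}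
theorem RV_dt3 (hP : PT 3 t) (h : c ≤ 4) (h' : c' ≤ 4) (a1 : FV c t f1 x1) (a2 : FV c t f2 x2)
    (a3 : FV c t f3 x3) (b1 : FV c' t g1 y1) (b2 : FV c' t g2 y2) (b3 : FV c' t g3 y3) :
    RV (c * c' + c * c' + c * c') t (f1 * g1 + f2 * g2 + f3 * g3) (dt3 x1 x2 x3 y1 y2 y3) :=
  ((RV.mul hP a1 b1 h h').add (RV.mul hP a2 b2 h h')).add (RV.mul hP a3 b3 h h')
end

theorem FW.mv (hP : PT 3 t) (hR : FM 1 t R X) (hs : FW 1 t v x) : FW 1 t (R.mulVec v) (mvF X x) := by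
  have h1 : (1 : ℕ) ≤ 4 := by norm_num
  refine ⟨?_, ?_, ?_⟩
  · exact FV.congr (FV.rnd hP (RV_dt3 hP h1 h1 hR.a hR.b hR.c hs.a hs.b hs.c) (by norm_num))
      (by simp [Matrix.mulVec, dotProduct, Fin.sum_univ_three])
  · exact FV.congr (FV.rnd hP (RV_dt3 hP h1 h1 hR.d hR.e hR.f hs.a hs.b hs.c) (by norm_num))
      (by simp [Matrix.mulVec, dotProduct, Fin.sum_univ_three])
  · exact FV.congr (FV.rnd hP (RV_dt3 hP h1 h1 hR.g hR.h hR.i hs.a hs.b hs.c) (by norm_num))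
      (by simp [Matrix.mulVec, dotProduct, Fin.sum_univ_three])

theorem FW.vm (hP : PT 3 t) (hz : FW 1 t v x) (hL : FM 1 t L X) :
    FW 1 t (L.transpose.mulVec v) (vmF x X) := by
  have h1 : (1 : ℕ) ≤ 4 := by norm_num
  refine ⟨?_, ?_, ?_⟩
  · exact FV.congr (FV.rnd hP (RV_dt3 hP h1 h1 hz.a hz.b hz.c hL.a hL.d hL.g) (by norm_num))
      (by simp [Matrix.mulVec, dotProduct, Fin.sum_univ_three]; ring)
  · exact FV.congr (FV.rnd hP (RV_dt3 hP h1 h1 hz.a hz.b hz.c hL.b hL.e hL.h) (by norm_num))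
      (by simp [Matrix.mulVec, dotProduct, Fin.sum_univ_three]; ring)
  · exact FV.congr (FV.rnd hP (RV_dt3 hP h1 h1 hz.a hz.b hz.c hL.c hL.f hL.i) (by norm_num))
      (by simp [Matrix.mulVec, dotProduct, Fin.sum_univ_three]; ring)

/-- `x y^t` -/
def ot (x y : Fin 3 → ℂ) : Mt := Matrix.of fun i j => x i * y j

theorem oJ_ot (x y : Fin 3 → ℂ) : oJ x y = ot x (jv y) := rfl

/-- `s z + u` -/
theorem RM_o1 (hP : PT 3 t) {s z : Fin 3 → ℂ} {S Z : F3} (hs : FW 1 t s S) (hz : FW 1 t z Z)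
    (hr : RV c t f r) : RM (1 + c) t (ot s z + f • (1 : Mt)) (o1W S Z r) := by
  have h1 : (1 : ℕ) ≤ 4 := by norm_num
  have m := fun {f g : ℂ} {x y : FP} (a : FV 1 t f x) (b : FV 1 t g y) =>
    (RV.mul hP a b h1 h1).mono (show 1 * 1 ≤ 1 + c by omega)
  have n := fun {f g : ℂ} {x y : FP} (a : FV 1 t f x) (b : FV 1 t g y) =>
    (((RV.mul hP a b h1 h1).add hr).mono (show 1 * 1 + c ≤ 1 + c by omega))
  refine ⟨(n hs.a hz.a).congr ?_, (m hs.a hz.b).congr ?_, (m hs.a hz.c).congr ?_,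
    (m hs.b hz.a).congr ?_, (n hs.b hz.b).congr ?_, (m hs.b hz.c).congr ?_,
    (m hs.c hz.a).congr ?_, (m hs.c hz.b).congr ?_, (n hs.c hz.c).congr ?_⟩ <;>
  simp [ot]

/-- `y z + s p + u` -/
theorem RM_o2 (hP : PT 3 t) {y z s p : Fin 3 → ℂ} {Y Z S P : F3} {a b d e : ℕ} (ha : a ≤ 4)
    (hb : b ≤ 4) (hd : d ≤ 4) (he : e ≤ 4) (hy : FW a t y Y)
    (hz : FW b t z Z) (hs : FW d t s S) (hp : FW e t p P) (hr : RV c t f r) :
    RM (a * b + d * e + c) t (ot y z + ot s p + f • (1 : Mt)) (o2W Y Z S P r) := by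
  have m := fun {f g f' g' : ℂ} {x y x' y' : FP} (h1 : FV a t f x) (h2 : FV b t g y)
    (h3 : FV d t f' x') (h4 : FV e t g' y') =>
    ((RV.mul hP h1 h2 ha hb).add (RV.mul hP h3 h4 hd he)).mono
      (show a * b + d * e ≤ a * b + d * e + c by omega)
  have n := fun {f g f' g' : ℂ} {x y x' y' : FP} (h1 : FV a t f x) (h2 : FV b t g y)
    (h3 : FV d t f' x') (h4 : FV e t g' y') =>
    ((RV.mul hP h1 h2 ha hb).add (RV.mul hP h3 h4 hd he)).add hr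
  refine ⟨(n hy.a hz.a hs.a hp.a).congr ?_, (m hy.a hz.b hs.a hp.b).congr ?_,
    (m hy.a hz.c hs.a hp.c).congr ?_,
    (m hy.b hz.a hs.b hp.a).congr ?_, (n hy.b hz.b hs.b hp.b).congr ?_,
    (m hy.b hz.c hs.b hp.c).congr ?_,
    (m hy.c hz.a hs.c hp.a).congr ?_, (m hy.c hz.b hs.c hp.b).congr ?_,
    (n hy.c hz.c hs.c hp.c).congr ?_⟩ <;>
  simp [ot]

/-- `W + t K` -/
theorem RM_ad (hP : PT 3 t) {x : FP} (hc' : c' ≤ 4) (hW : RM c t M W) (hK : FM c' t N X)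
    (ht : FV 1 t f x) : RM (c + c' * 1) t (M + f • N) (adK W X x) := by
  obtain ⟨h1, h2, h3, h4, h5, h6, h7, h8, h9⟩ := hW
  have n := fun {g : ℂ} {y : FP} (h2 : FV c' t g y) => RV.muls hP h2 ht hc' (by norm_num)
  refine ⟨(h1.add (n hK.a)).congr ?_, (h2.add (n hK.b)).congr ?_, (h3.add (n hK.c)).congr ?_,
    (h4.add (n hK.d)).congr ?_, (h5.add (n hK.e)).congr ?_, (h6.add (n hK.f)).congr ?_,
    (h7.add (n hK.g)).congr ?_, (h8.add (n hK.h)).congr ?_, (h9.add (n hK.i)).congr ?_⟩ <;>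
  simp [mul_comm]

theorem RM_lif (h : FM c t M X) (hc : c ≤ 4) : RM c t M (lifW X) :=
  ⟨RV.lif h.a hc, RV.lif h.b hc, RV.lif h.c hc, RV.lif h.d hc, RV.lif h.e hc, RV.lif h.f hc,
    RV.lif h.g hc, RV.lif h.h hc, RV.lif h.i hc⟩

theorem RV_dt6 {f1 f2 f3 g1 g2 g3 f4 f5 f6 g4 g5 g6 : ℂ}
    {x1 x2 x3 y1 y2 y3 x4 x5 x6 y4 y5 y6 : FP} (hP : PT 3 t) (a1 : FV 1 t f1 x1)
    (a2 : FV 1 t f2 x2) (a3 : FV 1 t f3 x3) (b1 : FV 1 t g1 y1) (b2 : FV 1 t g2 y2)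
    (b3 : FV 1 t g3 y3) (a4 : FV 1 t f4 x4)
    (a5 : FV 1 t f5 x5) (a6 : FV 1 t f6 x6) (b4 : FV 1 t g4 y4) (b5 : FV 1 t g5 y5)
    (b6 : FV 1 t g6 y6) :
    RV 6 t (f1 * g1 + f2 * g2 + f3 * g3 + (f4 * g4 + f5 * g5 + f6 * g6))
      (dt6 x1 x2 x3 y1 y2 y3 x4 x5 x6 y4 y5 y6) := by
  have h1 : (1 : ℕ) ≤ 4 := by norm_num
  exact (RV_dt3 hP h1 h1 a1 a2 a3 b1 b2 b3).add (RV_dt3 hP h1 h1 a4 a5 a6 b4 b5 b6)

/-- `M L + N M` -/
theorem RM_com (hP : PT 3 t) {A B C : F9} (hM : FM 1 t M A) (hL : FM 1 t L B)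
    (hN : FM 1 t N C) : RM 6 t (M * L + N * M) (comW A B C) := by
  refine ⟨(RV_dt6 hP hM.a hM.b hM.c hL.a hL.d hL.g hN.a hN.b hN.c hM.a hM.d hM.g).congr ?_,
    (RV_dt6 hP hM.a hM.b hM.c hL.b hL.e hL.h hN.a hN.b hN.c hM.b hM.e hM.h).congr ?_,
    (RV_dt6 hP hM.a hM.b hM.c hL.c hL.f hL.i hN.a hN.b hN.c hM.c hM.f hM.i).congr ?_,
    (RV_dt6 hP hM.d hM.e hM.f hL.a hL.d hL.g hN.d hN.e hN.f hM.a hM.d hM.g).congr ?_,
    (RV_dt6 hP hM.d hM.e hM.f hL.b hL.e hL.h hN.d hN.e hN.f hM.b hM.e hM.h).congr ?_,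
    (RV_dt6 hP hM.d hM.e hM.f hL.c hL.f hL.i hN.d hN.e hN.f hM.c hM.f hM.i).congr ?_,
    (RV_dt6 hP hM.g hM.h hM.i hL.a hL.d hL.g hN.g hN.h hN.i hM.a hM.d hM.g).congr ?_,
    (RV_dt6 hP hM.g hM.h hM.i hL.b hL.e hL.h hN.g hN.h hN.i hM.b hM.e hM.h).congr ?_,
    (RV_dt6 hP hM.g hM.h hM.i hL.c hL.f hL.i hN.g hN.h hN.i hM.c hM.f hM.i).congr ?_⟩ <;>
  simp [Matrix.add_apply, Matrix.mul_apply, Fin.sum_univ_three]

/-! ### the data of a run -/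

/-- THE DATA OF A RUN -/
structure QV (t : ℕ → ℝ) (s x : Fin 3 → ℂ) (τ σ : ℂ) (Q : QF) : Prop where
  hs : FW 1 t s Q.s
  hx : FW 1 t x Q.x
  ht : FV 1 t τ Q.t
  hu : FV 1 t σ Q.u

variable {s : Fin 3 → ℂ} {τ σ : ℂ} {Q : QF} {xx : Fin 3 → ℂ}

theorem QM_ok (hP : PT 3 t) (h : QV t s xx τ σ Q) : RM 2 t (oJ s s - τ • (1 : Mt)) (QM Q) := by
  have h1 : (1 : ℕ) ≤ 4 := by norm_num
  refine RM_congr (RM_o1 hP h.hs (h.hs.j h1) (RV.lif (h.ht.neg h1) h1)) ?_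
  rw [oJ_ot, neg_smul, sub_eq_add_neg]

theorem QD_ok (hP : PT 3 t) (h : QV t s xx τ σ Q) :
    RM 3 t (oJ xx s + oJ s xx + σ • (1 : Mt)) (QD Q) := by
  have h1 : (1 : ℕ) ≤ 4 := by norm_num
  exact RM_o2 hP h1 h1 h1 h1 h.hx (h.hs.j h1) h.hs (h.hx.j h1) (RV.lif h.hu h1)

theorem ot_add (x y z : Fin 3 → ℂ) : ot x (y + z) = ot x y + ot x z := by
  ext i j
  simp [ot, mul_add]
theorem ot_sub (x y z : Fin 3 → ℂ) : ot (x - y) z = ot x z - ot y z := by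
  ext i j
  simp [ot, sub_mul]

theorem QX_ok (hP : PT 3 t) {A B : F9} (h : QV t s xx τ σ Q) (hL : FM 1 t L A)
    (hR : FM 1 t R B) : RM 7 t (oJ xx s + oJ s xx + σ • (1 : Mt) + (oJ s s - τ • (1 : Mt)) * L -
      R * (oJ s s - τ • (1 : Mt))) (QX A B Q) := by
  have h1 : (1 : ℕ) ≤ 4 := by norm_num
  have h2 : (1 + 1 : ℕ) ≤ 4 := by norm_num
  have a := RM_o2 hP h2 h1 h1 h2 (h.hx.sub (FW.mv hP hR h.hs) h2) (h.hs.j h1) h.hs
    ((h.hx.j h1).add (FW.vm hP (h.hs.j h1) hL) h2) (RV.lif h.hu h1)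
  refine RM_congr (RM_ad hP h2 a (hR.sub hL h2) h.ht) ?_
  rw [ot_add, ot_sub, ← oJ_ot, ← oJ_ot, ← oJ_ot, ← mul_oJ]
  have e : ot s (L.transpose.mulVec (jv s)) = oJ s s * L := by
    rw [oJ_mul]
    rfl
  rw [e, sub_mul, mul_sub, smul_mul_assoc, one_mul, mul_smul_comm, mul_one, smul_sub]
  abel

end Pool.Agent.Helper91.FU
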